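import Mathlib
import Pool.Agent.R775.HL.Lin
import Pool.Agent.Y504.CO.Eig2

/-!
# Hyperbolic linear maps and filtrations
-/

set_option autoImplicit false

namespace Pool.Agent.W5h63.AP

open Pool.Agent.R775.HL Pool.Agent.H718R2.G

/-- `S² - 2 c S + 1` -/
noncomputable def qop {E : Type*} [AddCommGroup E] [Module ℝ E] (c : ℝ) (S : E →ₗ[ℝ] E) :
    E →ₗ[ℝ] E := S ∘ₗ S - (2 * c) • S + LinearMap.id

lemma qop_apply {E : Type*} [AddCommGroup E] [Module ℝ E] (c : ℝ) (S : E →ₗ[ℝ] E) (x : E) :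
    qop c S x = S (S x) - (2 * c) • S x + x := rfl

lemma norm_cs (θ : ℝ) : ‖(⟨Real.cos θ, Real.sin θ⟩ : ℂ)‖ = 1 := by
  have h1 : ‖(⟨Real.cos θ, Real.sin θ⟩ : ℂ)‖ ^ 2 = 1 := by
    rw [Complex.sq_norm, Complex.normSq_mk]
    nlinarith [Real.sin_sq_add_cos_sq θ]
  nlinarith [norm_nonneg (⟨Real.cos θ, Real.sin θ⟩ : ℂ)]

lemma qop_inj_of_hyp {E : Type} [AddCommGroup E] [Module ℝ E] [FiniteDimensional ℝ E]
    {A : E →ₗ[ℝ] E} (hA : HypLin A) (θ : ℝ) : Function.Injective (qop (Real.cos θ) A) := by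
  rw [injective_iff_map_eq_zero]
  intro x hx
  by_contra hne
  rw [qop_apply] at hx
  have hAA : A (A x) = (2 * Real.cos θ) • A x - x := by
    have h1 : A (A x) - ((2 * Real.cos θ) • A x - x) = 0 := by rw [← hx]; abel
    exact sub_eq_zero.1 h1
  have hsc := Real.sin_sq_add_cos_sq θ
  by_cases hs : Real.sin θ = 0
  · have hc : Real.cos θ * Real.cos θ = 1 := by nlinarith
    by_cases hy : A x - Real.cos θ • x = 0
    · refine hA ⟨Real.cos θ, Real.sin θ⟩ ?_ (norm_cs θ)
      refine Pool.Agent.Y504.CO.Eig2.root_of_eig A _ x 0 (Or.inl hne) ?_ ?_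
      · simp only [smul_zero, sub_zero]
        exact sub_eq_zero.1 hy
      · simp [hs]
    · refine hA ⟨Real.cos θ, Real.sin θ⟩ ?_ (norm_cs θ)
      refine Pool.Agent.Y504.CO.Eig2.root_of_eig A _ (A x - Real.cos θ • x) 0 (Or.inl hy) ?_ ?_
      · simp only [smul_zero, sub_zero, map_sub, map_smul]
        rw [hAA, smul_sub, smul_smul, hc, one_smul]
        module
      · simp [hs]
  · refine hA ⟨Real.cos θ, Real.sin θ⟩ ?_ (norm_cs θ)
    refine Pool.Agent.Y504.CO.Eig2.root_of_eig A _ x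
      ((Real.sin θ)⁻¹ • (Real.cos θ • x - A x)) (Or.inl hne) ?_ ?_
    · simp only
      rw [smul_smul, mul_inv_cancel₀ hs, one_smul]
      abel
    · simp only [map_smul, map_sub]
      rw [hAA]
      apply smul_right_injective E hs
      simp only [smul_add, smul_smul, mul_inv_cancel₀ hs, one_smul]
      rw [show Real.sin θ * (Real.cos θ * (Real.sin θ)⁻¹) = Real.cos θ by field_simp]
      have e1 : Real.sin θ * Real.sin θ = 1 - Real.cos θ * Real.cos θ := by nlinarith
      rw [e1]
      module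

/-- injectivity passes through filtrations -/
lemma filtration {E : Type*} [AddCommGroup E] [Module ℝ E] [FiniteDimensional ℝ E]
    {A S : E →ₗ[ℝ] E} (D : ℕ → Submodule ℝ E) {s : ℕ} (h0 : D 0 = ⊤) (hs : D s = ⊥)
    (hA : ∀ i, ∀ x ∈ D i, A x ∈ D i) (hAS : ∀ i, ∀ x ∈ D i, A x - S x ∈ D (i + 1))
    (hinj : Function.Injective A) : Function.Injective S := by
  rw [injective_iff_map_eq_zero]
  have key : ∀ j i : ℕ, i + j = s → ∀ x ∈ D i, S x = 0 → x = 0 := by
    intro j
    induction j with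
    | zero =>
      intro i hi x hx _
      rw [Nat.add_zero] at hi
      rw [hi, hs, Submodule.mem_bot] at hx
      exact hx
    | succ j ih =>
      intro i hi x hx hSx
      refine ih (i + 1) (by omega) x ?_ hSx
      have h1 : A x ∈ D (i + 1) := by
        have h2 := hAS i x hx
        rwa [hSx, sub_zero] at h2
      have h3 : Function.Injective (A.restrict (hA (i + 1))) := by
        intro u v huv
        apply Subtype.ext
        apply hinj
        exact congrArg Subtype.val huv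
      have h4 := LinearMap.injective_iff_surjective.1 h3
      obtain ⟨x', hx'⟩ := h4 ⟨A x, h1⟩
      have h5 : A x' = A x := congrArg Subtype.val hx'
      rw [← hinj h5]
      exact x'.2
  intro x hx
  exact key s 0 (by omega) x (by rw [h0]; trivial) hx

lemma eig_of_root {E : Type*} [AddCommGroup E] [Module ℝ E] [FiniteDimensional ℝ E]
    {S : E →ₗ[ℝ] E} {ν : ℂ} (hν : (S.charpoly.map (algebraMap ℝ ℂ)).IsRoot ν) (h1 : ‖ν‖ = 1) :
    ∃ θ : ℝ, ¬ Function.Injective (qop (Real.cos θ) S) := by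
  classical
  let e : E ≃ₗ[ℝ] V (Module.finrank ℝ E) :=
    LinearEquiv.ofFinrankEq E (V (Module.finrank ℝ E)) (by rw [finrank_euclideanSpace_fin])
  let f : V (Module.finrank ℝ E) →ₗ[ℝ] V (Module.finrank ℝ E) := e.conj S
  have hf : f.charpoly = S.charpoly := LinearEquiv.charpoly_conj e S
  let f' : V (Module.finrank ℝ E) →L[ℝ] V (Module.finrank ℝ E) := LinearMap.toContinuousLinearMap f
  have hff : (f' : V (Module.finrank ℝ E) →ₗ[ℝ] V (Module.finrank ℝ E)) = f := rfl
  obtain ⟨θ, u, w, hne, hu, hw⟩ := (Pool.Agent.Y504.CO.Plug.hEIG _ f').1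
    ((Pool.Agent.Y504.CO.Plug.hEIG _ f').2 ⟨ν, h1, by rw [hff, hf]; exact hν⟩)
  have hu' : f u = Real.cos θ • u - Real.sin θ • w := hu
  have hw' : f w = Real.sin θ • u + Real.cos θ • w := hw
  have hsc := Real.sin_sq_add_cos_sq θ
  refine ⟨θ, fun hinj => ?_⟩
  have key : ∀ v : V (Module.finrank ℝ E), qop (Real.cos θ) f v = 0 → v = 0 := by
    intro v hv
    have h2 : qop (Real.cos θ) S (e.symm v) = 0 := by
      apply e.injective
      rw [map_zero, ← hv, qop_apply, qop_apply]
      simp only [map_add, map_sub, map_smul, e.apply_symm_apply]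
      have h3 : ∀ x, f x = e (S (e.symm x)) := fun x => by
        show (e.conj S) x = _
        rw [LinearEquiv.conj_apply_apply]
      rw [h3, h3, e.symm_apply_apply]
    have h4 := (injective_iff_map_eq_zero _).1 hinj _ h2
    have h5 := congrArg e h4
    rwa [e.apply_symm_apply, map_zero] at h5
  have e1 : Real.sin θ * Real.sin θ = 1 - Real.cos θ * Real.cos θ := by nlinarith
  have hu0 : u = 0 := by
    apply key
    rw [qop_apply, hu', map_sub, map_smul, map_smul, hu', hw']
    simp only [smul_sub, smul_add, smul_smul]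
    rw [e1]
    module
  have hw0 : w = 0 := by
    apply key
    rw [qop_apply, hw', map_add, map_smul, map_smul, hu', hw']
    simp only [smul_sub, smul_add, smul_smul]
    rw [e1]
    module
  rcases hne with h | h
  · exact h hu0
  · exact h hw0

/-- Hyperbolicity passes from `A` to `L` if `A` and `L ^ k` agree on the graded pieces of an invariant
filtration. -/
theorem hyp_transfer {E : Type} [AddCommGroup E] [Module ℝ E] [FiniteDimensional ℝ E]
    {A L : E →ₗ[ℝ] E} {k : ℕ} (D : ℕ → Submodule ℝ E) {s : ℕ} (h0 : D 0 = ⊤) (hs : D s = ⊥)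
    (hmono : ∀ i, D (i + 1) ≤ D i) (hL : ∀ i, ∀ x ∈ D i, L x ∈ D i)
    (hAL : ∀ i, ∀ x ∈ D i, A x - (L ^ k) x ∈ D (i + 1)) (hA : HypLin A) : HypLin L := by
  have hLk : ∀ j i, ∀ x ∈ D i, (L ^ j) x ∈ D i := by
    intro j
    induction j with
    | zero => intro i x hx; rw [pow_zero]; exact hx
    | succ j ih => intro i x hx; rw [pow_succ']; exact hL i _ (ih i x hx)
  have hAD : ∀ i, ∀ x ∈ D i, A x ∈ D i := by
    intro i x hx
    have h1 := (D i).add_mem (hmono i (hAL i x hx)) (hLk k i x hx)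
    rwa [sub_add_cancel] at h1
  refine root_norm (m := k) (p := (L ^ k).charpoly) (LinearMap.aeval_self_charpoly _) ?_
  intro ν hν h1
  obtain ⟨θ, hθ⟩ := eig_of_root hν h1
  apply hθ
  refine filtration (A := qop (Real.cos θ) A) D h0 hs ?_ ?_ (qop_inj_of_hyp hA θ)
  · intro i x hx
    rw [qop_apply]
    exact (D i).add_mem ((D i).sub_mem (hAD i _ (hAD i x hx)) ((D i).smul_mem _ (hAD i x hx))) hx
  · intro i x hx
    rw [qop_apply, qop_apply]
    have e1 : A (A x) - (2 * Real.cos θ) • A x + x -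
        ((L ^ k) ((L ^ k) x) - (2 * Real.cos θ) • (L ^ k) x + x) =
        (A (A x) - (L ^ k) (A x)) + (L ^ k) (A x - (L ^ k) x) -
          (2 * Real.cos θ) • (A x - (L ^ k) x) := by
      rw [map_sub]
      module
    rw [e1]
    exact (D (i + 1)).sub_mem ((D (i + 1)).add_mem (hAL i _ (hAD i x hx))
      (hLk k (i + 1) _ (hAL i x hx))) ((D (i + 1)).smul_mem _ (hAL i x hx))

end Pool.Agent.W5h63.AP
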