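import Mathlib
import Pool.Agent.R189.NC.Arith

/-!
# Matrix exponentials and Lie algebras of unipotent groups
-/

set_option autoImplicit false

open scoped ContDiff Topology
open Filter

namespace Pool.Agent.W5h63.AP

open Pool.Agent.R189.NC

section exp

variable {d : ℕ}

set_option backward.isDefEq.respectTransparency false in
open scoped Matrix.Norms.Operator in
lemma exp_entry_smooth {E : Type*} [NormedAddCommGroup E] [NormedSpace ℝ E]
    [FiniteDimensional ℝ E] (f : E →ₗ[ℝ] Md d) (a b : Fin d) :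
    ContDiff ℝ ∞ (fun s => (NormedSpace.exp (f s)) a b) := by
  have h1 : ContDiff ℝ ∞ (NormedSpace.exp : Md d → Md d) :=
    contDiff_iff_contDiffAt.2 fun x => (NormedSpace.exp_analytic (𝕂 := ℝ) x).contDiffAt
  have h2 : ContDiff ℝ ∞ f := (LinearMap.toContinuousLinearMap f).contDiff
  have h3 : ContDiff ℝ ∞ (fun M : Md d => M a b) :=
    (LinearMap.toContinuousLinearMap (Matrix.entryLinearMap ℝ ℝ a b)).contDiff
  exact h3.comp (h1.comp h2)

set_option backward.isDefEq.respectTransparency false in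
open scoped Matrix.Norms.Operator in
lemma exp_entry_deriv (X : Md d) (a b : Fin d) :
    HasDerivAt (fun t : ℝ => (NormedSpace.exp (t • X)) a b) (X a b) 0 := by
  have h1 := hasDerivAt_exp_smul_const (𝕂 := ℝ) X 0
  rw [zero_smul, NormedSpace.exp_zero, one_mul] at h1
  have h3 := ((LinearMap.toContinuousLinearMap (Matrix.entryLinearMap ℝ ℝ a b)).hasFDerivAt
    (x := NormedSpace.exp ((0 : ℝ) • X))).comp_hasDerivAt (0 : ℝ) h1
  exact h3

lemma exp_line_inj {X Y : Md d}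
    (h : ∀ t : ℝ, NormedSpace.exp (t • X) = NormedSpace.exp (t • Y)) : X = Y := by
  ext a b
  have h1 := exp_entry_deriv X a b
  have h2 := exp_entry_deriv Y a b
  have h3 : (fun t : ℝ => (NormedSpace.exp (t • X)) a b) =
      fun t : ℝ => (NormedSpace.exp (t • Y)) a b := by
    funext t
    rw [h t]
  rw [h3] at h1
  exact h1.unique h2

lemma exp_conj_mul {U W X : Md d} (hUW : U * W = 1) :
    U * NormedSpace.exp X * W = NormedSpace.exp (U * X * W) := by
  have hU : IsUnit U := IsUnit.of_mul_eq_one (b := W) hUW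
  have hW : U⁻¹ = W := Matrix.inv_eq_right_inv hUW
  have h1 := Matrix.exp_conj U X hU
  rw [hW] at h1
  exact h1.symm

lemma exp_add_smul (X : Md d) (s t : ℝ) :
    NormedSpace.exp ((s + t) • X) = NormedSpace.exp (s • X) * NormedSpace.exp (t • X) := by
  rw [add_smul]
  exact Matrix.exp_add_of_commute _ _ (((Commute.refl X).smul_left s).smul_right t)

end exp

/-- The linear space `𝔤` of matrices is the Lie algebra of the group `G` which is given by its
representation `ι`: it consists of the `X` for which all `exp (t X)` are in `ι(G)`, and `exp` maps it onto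
`ι(G)` (the group is simply connected and nilpotent). -/
structure IsLieAlg {G : Type} [Group G] {d : ℕ} (ι : G →* Md d) (𝔤 : Submodule ℝ (Md d)) :
    Prop where
  mem_iff : ∀ X : Md d, X ∈ 𝔤 ↔ ∀ t : ℝ, ∃ g, ι g = NormedSpace.exp (t • X)
  log : ∀ g, ∃ X ∈ 𝔤, ι g = NormedSpace.exp X

/-- `L` is the differential of the endomorphism `φ`: `φ (exp X) = exp (L X)`. -/
def IsDiff {G : Type} [Group G] {d : ℕ} (ι : G →* Md d) (𝔤 : Submodule ℝ (Md d)) (φ : G →* G)
    (L : 𝔤 →ₗ[ℝ] 𝔤) : Prop :=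
  ∀ (X : 𝔤) (g : G), ι g = NormedSpace.exp (X : Md d) → ι (φ g) = NormedSpace.exp ((L X : 𝔤) : Md d)

section lie

variable {G : Type} [Group G] {d : ℕ} {ι : G →* Md d} {𝔤 : Submodule ℝ (Md d)}

lemma IsLieAlg.exp_mem (h : IsLieAlg ι 𝔤) (X : 𝔤) : ∃ g, ι g = NormedSpace.exp (X : Md d) := by
  obtain ⟨g, hg⟩ := (h.mem_iff X).1 X.2 1
  rw [one_smul] at hg
  exact ⟨g, hg⟩

lemma iota_mul_inv (w : G) : ι w * ι w⁻¹ = 1 := by rw [← map_mul, mul_inv_cancel, map_one]

lemma iota_inv_mul (w : G) : ι w⁻¹ * ι w = 1 := by rw [← map_mul, inv_mul_cancel, map_one]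

lemma IsLieAlg.ad_mem (h : IsLieAlg ι 𝔤) (w : G) (X : Md d) (hX : X ∈ 𝔤) :
    ι w * X * ι w⁻¹ ∈ 𝔤 := by
  rw [h.mem_iff] at hX ⊢
  intro t
  obtain ⟨g, hg⟩ := hX t
  refine ⟨w * g * w⁻¹, ?_⟩
  rw [map_mul, map_mul, hg, exp_conj_mul (iota_mul_inv w)]
  congr 1
  rw [mul_smul_comm, smul_mul_assoc]

/-- the adjoint action -/
def Ad (h : IsLieAlg ι 𝔤) (w : G) : 𝔤 →ₗ[ℝ] 𝔤 where
  toFun X := ⟨ι w * (X : Md d) * ι w⁻¹, h.ad_mem w X X.2⟩
  map_add' X Y := by
    apply Subtype.ext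
    show ι w * ((X : Md d) + (Y : Md d)) * ι w⁻¹ = _
    rw [mul_add, add_mul]
    rfl
  map_smul' c X := by
    apply Subtype.ext
    show ι w * (c • (X : Md d)) * ι w⁻¹ = _
    rw [mul_smul_comm, smul_mul_assoc]
    rfl

lemma Ad_coe (h : IsLieAlg ι 𝔤) (w : G) (X : 𝔤) :
    ((Ad h w X : 𝔤) : Md d) = ι w * (X : Md d) * ι w⁻¹ := rfl

lemma diff_ad (h : IsLieAlg ι 𝔤) {φ : G →* G} {L : 𝔤 →ₗ[ℝ] 𝔤} (hL : IsDiff ι 𝔤 φ L) (w : G)
    (X : 𝔤) : L (Ad h w X) = Ad h (φ w) (L X) := by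
  apply Subtype.ext
  apply exp_line_inj
  intro t
  obtain ⟨g, hg⟩ := h.exp_mem (t • X)
  have h1 : ι (w * g * w⁻¹) = NormedSpace.exp ((t • Ad h w X : 𝔤) : Md d) := by
    rw [map_mul, map_mul, hg, exp_conj_mul (iota_mul_inv w)]
    congr 1
    rw [Submodule.coe_smul, Submodule.coe_smul, Ad_coe, mul_smul_comm, smul_mul_assoc]
  have h2 := hL _ _ h1
  have h3 := hL _ _ hg
  rw [map_smul, Submodule.coe_smul] at h2 h3
  rw [← h2, map_mul, map_mul, map_mul, map_mul, h3, map_inv,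
    exp_conj_mul (iota_mul_inv (φ w)), Ad_coe, mul_smul_comm, smul_mul_assoc]

/-- the filtration by iterated commutators -/
def Dfil (h : IsLieAlg ι 𝔤) : ℕ → Submodule ℝ 𝔤
  | 0 => ⊤
  | i + 1 => Submodule.span ℝ {z | ∃ (w : G) (x : 𝔤), x ∈ Dfil h i ∧ z = Ad h w x - x}

lemma Dfil_mono (h : IsLieAlg ι 𝔤) (i : ℕ) : Dfil h (i + 1) ≤ Dfil h i := by
  induction i with
  | zero => exact le_top
  | succ i ih =>
    show Submodule.span ℝ _ ≤ _
    rw [Submodule.span_le]
    rintro z ⟨w, x, hx, rfl⟩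
    exact Submodule.subset_span ⟨w, x, ih hx, rfl⟩

lemma Dfil_diff (h : IsLieAlg ι 𝔤) {φ : G →* G} {L : 𝔤 →ₗ[ℝ] 𝔤} (hL : IsDiff ι 𝔤 φ L) (i : ℕ) :
    ∀ x ∈ Dfil h i, L x ∈ Dfil h i := by
  induction i with
  | zero => intro x _; trivial
  | succ i ih =>
    intro x hx
    have h1 : Dfil h (i + 1) ≤ (Dfil h (i + 1)).comap L := by
      show Submodule.span ℝ _ ≤ _
      rw [Submodule.span_le]
      rintro z ⟨w, x, hx, rfl⟩
      show L (Ad h w x - x) ∈ Dfil h (i + 1)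
      rw [map_sub, diff_ad h hL]
      exact Submodule.subset_span ⟨φ w, L x, ih x hx, rfl⟩
    exact h1 hx

/-- matrices with entries only above the `j`-th diagonal -/
def Up (d j : ℕ) : Submodule ℝ (Md d) where
  carrier := {M | ∀ a b : Fin d, (b : ℕ) < a + j → M a b = 0}
  add_mem' {M M'} h h' a b hab := by
    show M a b + M' a b = 0
    rw [h a b hab, h' a b hab, add_zero]
  zero_mem' a b _ := rfl
  smul_mem' c M h a b hab := by
    show c * M a b = 0
    rw [h a b hab, mul_zero]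

lemma Up.mul_left {j : ℕ} {W M : Md d} (hW : Uni W) (hM : M ∈ Up d j) : W * M ∈ Up d j := by
  intro a b hab
  rw [Matrix.mul_apply]
  refine Finset.sum_eq_zero fun c _ => ?_
  rcases lt_or_ge c a with h | h
  · rw [hW a c h.le, if_neg (ne_of_gt h), zero_mul]
  · rw [hM c b (by have : (a : ℕ) ≤ c := h; omega), mul_zero]

lemma Up.mul_right {j : ℕ} {W M : Md d} (hW : Uni W) (hM : M ∈ Up d j) : M * W ∈ Up d j := by
  intro a b hab
  rw [Matrix.mul_apply]
  refine Finset.sum_eq_zero fun c _ => ?_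
  rcases lt_or_ge b c with h | h
  · rw [hW c b h.le, if_neg (ne_of_gt h), mul_zero]
  · rw [hM a c (by have : (c : ℕ) ≤ b := h; omega), zero_mul]

lemma Up.nil_left {j : ℕ} {W M : Md d} (hW : Uni W) (hM : M ∈ Up d j) :
    (W - 1) * M ∈ Up d (j + 1) := by
  intro a b hab
  rw [Matrix.mul_apply]
  refine Finset.sum_eq_zero fun c _ => ?_
  rcases le_or_gt c a with h | h
  · rw [Matrix.sub_apply, hW a c h, Matrix.one_apply, sub_self, zero_mul]
  · rw [hM c b (by have : (a : ℕ) < c := h; omega), mul_zero]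

lemma Up.nil_right {j : ℕ} {W M : Md d} (hW : Uni W) (hM : M ∈ Up d j) :
    M * (W - 1) ∈ Up d (j + 1) := by
  intro a b hab
  rw [Matrix.mul_apply]
  refine Finset.sum_eq_zero fun c _ => ?_
  rcases le_or_gt b c with h | h
  · rw [Matrix.sub_apply, hW c b h, Matrix.one_apply, sub_self, mul_zero]
  · rw [hM a c (by have : (c : ℕ) < b := h; omega), zero_mul]

lemma lie_upper (hU : ∀ g, Uni (ι g)) (h : IsLieAlg ι 𝔤) (X : 𝔤) : (X : Md d) ∈ Up d 1 := by
  intro a b hab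
  have h1 := exp_entry_deriv (X : Md d) a b
  have h2 : (fun t : ℝ => (NormedSpace.exp (t • (X : Md d))) a b) =
      fun _ => if a = b then 1 else 0 := by
    funext t
    obtain ⟨g, hg⟩ := (h.mem_iff X).1 X.2 t
    rw [← hg]
    exact hU g a b (by show (b : ℕ) ≤ a; omega)
  rw [h2] at h1
  exact h1.unique (hasDerivAt_const _ _)

lemma Dfil_upper (hU : ∀ g, Uni (ι g)) (h : IsLieAlg ι 𝔤) (i : ℕ) :
    ∀ x ∈ Dfil h i, (x : Md d) ∈ Up d (i + 1) := by
  induction i with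
  | zero => exact fun x _ => lie_upper hU h x
  | succ i ih =>
    intro x hx
    have h1 : Dfil h (i + 1) ≤ (Up d (i + 1 + 1)).comap 𝔤.subtype := by
      show Submodule.span ℝ _ ≤ _
      rw [Submodule.span_le]
      rintro z ⟨w, x, hx, rfl⟩
      show ((Ad h w x - x : 𝔤) : Md d) ∈ Up d (i + 1 + 1)
      have hxU := ih x hx
      rw [Submodule.coe_sub, Ad_coe]
      have e1 : ι w * (x : Md d) * ι w⁻¹ - (x : Md d) =
          ((ι w - 1) * (x : Md d) - (x : Md d) * (ι w - 1)) * ι w⁻¹ := by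
        have e2 : (x : Md d) * ι w * ι w⁻¹ = (x : Md d) := by
          rw [mul_assoc, iota_mul_inv, mul_one]
        have e3 : ((ι w - 1) * (x : Md d) - (x : Md d) * (ι w - 1)) * ι w⁻¹ =
            ι w * (x : Md d) * ι w⁻¹ - (x : Md d) * ι w * ι w⁻¹ := by noncomm_ring
        rw [e3, e2]
      rw [e1]
      exact Up.mul_right (hU _) ((Up d (i + 1 + 1)).sub_mem (Up.nil_left (hU w) hxU)
        (Up.nil_right (hU w) hxU))
    exact h1 hx

lemma Dfil_bot (hU : ∀ g, Uni (ι g)) (h : IsLieAlg ι 𝔤) : Dfil h d = ⊥ := by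
  rw [eq_bot_iff]
  intro x hx
  rw [Submodule.mem_bot]
  apply Subtype.ext
  ext a b
  exact Dfil_upper hU h d x hx a b (by have := b.2; omega)

end lie

end Pool.Agent.W5h63.AP
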