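import Mathlib
import Pool.Agent.H718R2.G0

/-!
# Orbits of local flows, and derivatives along orbits
-/

set_option autoImplicit false

open scoped Topology ContDiff Manifold
open Set Filter Metric

noncomputable section

namespace Pool.Agent.W5h63.AP

open Pool.Agent.H718R2.G

universe u

variable {n : ℕ} {N : Type u} [TopologicalSpace N] [ChartedSpace (V n) N]

/-- the basis vector of `ℝ¹` -/
def e1 : V 1 := EuclideanSpace.single (0 : Fin 1) (1 : ℝ)

lemma smul_e1_apply (t : ℝ) : (t • e1) 0 = t := by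
  simp [e1]

lemma flow_const [IsManifold (𝓡 n) ∞ N] [T2Space N] [CompactSpace N] {O : Set N} (hO : IsOpen O)
    {P : V 1 → N → N} (hmaps : ∀ t, ∀ x ∈ O, P t x ∈ O) (h0 : ∀ x ∈ O, P 0 x = x)
    (hadd : ∀ s t, ∀ x ∈ O, P (s + t) x = P s (P t x))
    (hsm : ContMDiffOn ((𝓡 1).prod (𝓡 n)) (𝓡 n) ∞ (fun p : V 1 × N => P p.1 p.2) (univ ×ˢ O))
    {y : N} (hy : y ∈ O)
    (hd : HasDerivAt (fun u : ℝ => (chartAt (V n) y) (P (u • e1) y)) 0 0) :
    ∀ t : ℝ, P (t • e1) y = y := by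
  obtain ⟨M, d, hd1, hd2, -⟩ := exists_embedding_euclidean_of_compact (I := 𝓡 n) (M := N)
  let ψ := chartAt (V n) y
  have hcurve : ContinuousAt (fun u : ℝ => P (u • e1) y) 0 := by
    have h1 : ContinuousAt (fun p : V 1 × N => P p.1 p.2) ((0 : ℝ) • e1, y) := by
      refine (hsm.continuousOn).continuousAt ?_
      exact prod_mem_nhds univ_mem (hO.mem_nhds hy)
    exact ContinuousAt.comp (f := fun u : ℝ => ((u • e1, y) : V 1 × N))
      (g := fun p : V 1 × N => P p.1 p.2) h1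
      ((continuous_id.smul continuous_const).prodMk continuous_const).continuousAt
  have key : ∀ t : ℝ, HasDerivAt (fun t : ℝ => d (P (t • e1) y)) 0 t := by
    intro t
    have e1' : ContMDiffAt (𝓡 n) (𝓡 n) ∞ (fun x : N => P (t • e1) x) y := by
      have h1 : ContMDiffAt ((𝓡 1).prod (𝓡 n)) (𝓡 n) ∞ (fun p : V 1 × N => P p.1 p.2)
          (t • e1, y) :=
        hsm.contMDiffAt (prod_mem_nhds univ_mem (hO.mem_nhds hy))
      exact ContMDiffAt.comp (g := fun p : V 1 × N => P p.1 p.2)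
        (f := fun x : N => ((t • e1, x) : V 1 × N)) y h1
        (contMDiffAt_const.prodMk contMDiffAt_id)
    have e2 : ContMDiffAt (𝓡 n) 𝓘(ℝ, EuclideanSpace ℝ (Fin M)) ∞
        (fun x : N => d (P (t • e1) x)) y := hd1.contMDiffAt.comp y e1'
    have e3 : ContMDiffAt (𝓡 n) (𝓡 n) ∞ (extChartAt (𝓡 n) y).symm (ψ y) :=
      (contMDiffOn_extChartAt_symm (n := ∞) y).contMDiffAt
        ((isOpen_extChartAt_target (I := 𝓡 n) y).mem_nhds
          ((extChartAt (𝓡 n) y).map_source (mem_extChartAt_source (I := 𝓡 n) y)))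
    have e3' : (extChartAt (𝓡 n) y).symm (ψ y) = y :=
      (extChartAt (𝓡 n) y).left_inv (mem_extChartAt_source (I := 𝓡 n) y)
    have e4 : ContMDiffAt (𝓡 n) 𝓘(ℝ, EuclideanSpace ℝ (Fin M)) ∞
        (fun v : V n => d (P (t • e1) ((extChartAt (𝓡 n) y).symm v))) (ψ y) :=
      ContMDiffAt.comp (g := fun x : N => d (P (t • e1) x)) (f := (extChartAt (𝓡 n) y).symm)
        (ψ y) (by rw [e3']; exact e2) e3
    have e5 := (e4.contDiffAt.differentiableAt (by simp)).hasFDerivAt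
    have e8 : ψ (P ((0 : ℝ) • e1) y) = ψ y := by rw [zero_smul, h0 y hy]
    have e9 := HasFDerivAt.comp_hasDerivAt (l := fun v : V n =>
      d (P (t • e1) ((extChartAt (𝓡 n) y).symm v))) (f := fun u : ℝ => ψ (P (u • e1) y)) (0 : ℝ)
      (by rw [e8]; exact e5) hd
    rw [map_zero] at e9
    have e10 : ∀ᶠ u : ℝ in 𝓝 0, d (P ((t + u) • e1) y) =
        d (P (t • e1) ((extChartAt (𝓡 n) y).symm (ψ (P (u • e1) y)))) := by
      have hc : ∀ᶠ u : ℝ in 𝓝 0, P (u • e1) y ∈ (chartAt (V n) y).source := by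
        refine hcurve.eventually ((chartAt (V n) y).open_source.mem_nhds ?_)
        show P ((0 : ℝ) • e1) y ∈ _
        rw [zero_smul, h0 y hy]
        exact mem_chart_source _ _
      filter_upwards [hc] with u hu
      have e11 : (extChartAt (𝓡 n) y).symm (ψ (P (u • e1) y)) = P (u • e1) y :=
        (extChartAt (𝓡 n) y).left_inv (by rw [extChartAt_source]; exact hu)
      rw [e11, add_smul, hadd _ _ y hy]
    have e12 : HasDerivAt (fun u : ℝ => d (P ((t + u) • e1) y)) 0 0 :=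
      e9.congr_of_eventuallyEq e10
    have e13 := HasDerivAt.comp_const_add (-t) t (f := fun u : ℝ => d (P ((t + u) • e1) y))
      (by rw [neg_add_cancel]; exact e12)
    simpa using e13
  intro t
  have h1 := is_const_of_deriv_eq_zero (f := fun t : ℝ => d (P (t • e1) y))
    (fun t => (key t).differentiableAt) (fun t => (key t).deriv) t 0
  have h2 := hd2.injective h1
  rw [h2, zero_smul, h0 y hy]

/-- existence of the derivative of a smooth family of points in a chart -/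
lemma curve_deriv [IsManifold (𝓡 n) ∞ N] {k : ℕ} {θ : V k → N} {y : N}
    (hθ : ContMDiff (𝓡 k) (𝓡 n) ∞ θ) (hθ0 : θ 0 = y) :
    ∃ J : V k →L[ℝ] V n, HasFDerivAt (fun s => (chartAt (V n) y) (θ s)) J 0 := by
  have h2 : ContMDiffAt (𝓡 n) (𝓡 n) ∞ (extChartAt (𝓡 n) y) (θ 0) := by
    rw [hθ0]
    exact contMDiffAt_extChartAt
  have h3 : ContMDiffAt (𝓡 k) (𝓡 n) ∞ (fun s : V k => extChartAt (𝓡 n) y (θ s)) 0 :=
    ContMDiffAt.comp (g := extChartAt (𝓡 n) y) (f := θ) (0 : V k) h2 hθ.contMDiffAt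
  have h4 : ContDiffAt ℝ ∞ (fun s : V k => extChartAt (𝓡 n) y (θ s)) 0 :=
    h3.contDiffAt
  have h5 := (h4.differentiableAt (by simp)).hasFDerivAt
  exact ⟨_, h5⟩

/-- a map which permutes the points of a family has a derivative which is determined along it -/
lemma curve_inter {k : ℕ} {θ : V k → N} {y : N} (hθc : ContinuousAt θ 0) (hθ0 : θ 0 = y)
    {J : V k →L[ℝ] V n} (hJ : HasFDerivAt (fun s => (chartAt (V n) y) (θ s)) J 0) {f : N → N}
    {A : V k →ₗ[ℝ] V k} (hA : ∀ s, f (θ s) = θ (A s)) {D : V n →L[ℝ] V n}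
    (hD : HasFDerivAt (fun v => (chartAt (V n) y) (f ((chartAt (V n) y).symm v))) D
      ((chartAt (V n) y) y)) : (D : V n →ₗ[ℝ] V n) ∘ₗ (J : V k →ₗ[ℝ] V n) =
      (J : V k →ₗ[ℝ] V n) ∘ₗ A := by
  let ψ := chartAt (V n) y
  let A' : V k →L[ℝ] V k := LinearMap.toContinuousLinearMap A
  have h0 : ψ (θ 0) = ψ y := by rw [hθ0]
  have h1 : HasFDerivAt (fun s => ψ (f (ψ.symm (ψ (θ s))))) (D.comp J) 0 :=
    HasFDerivAt.comp (g := fun v => ψ (f (ψ.symm v))) (f := fun s => ψ (θ s)) (0 : V k)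
      (by rw [h0]; exact hD) hJ
  have h2 : HasFDerivAt (fun s => ψ (θ (A' s))) (J.comp A') 0 :=
    HasFDerivAt.comp (g := fun s => ψ (θ s)) (f := fun s => A' s) (0 : V k)
      (by rw [map_zero]; exact hJ) A'.hasFDerivAt
  have h3 : (fun s => ψ (f (ψ.symm (ψ (θ s))))) =ᶠ[𝓝 0] fun s => ψ (θ (A' s)) := by
    have hs0 : ∀ᶠ s in 𝓝 (0 : V k), θ s ∈ (chartAt (V n) y).source := by
      refine hθc.eventually ((chartAt (V n) y).open_source.mem_nhds ?_)
      rw [hθ0]
      exact mem_chart_source _ _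
    filter_upwards [hs0] with s hs
    have e1 : ψ.symm (ψ (θ s)) = θ s := ψ.left_inv hs
    rw [e1, hA]
    rfl
  have h4 := h1.unique (h2.congr_of_eventuallyEq h3)
  ext s
  have h5 := DFunLike.congr_fun h4 s
  exact congrArg (fun v : V n => v _) h5

end Pool.Agent.W5h63.AP
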