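import Mathlib
import Pool.Agent.R775.HL.Tor
import Pool.Agent.W5h63.AP.Alg
import Pool.Agent.W5h63.AP.MExp
import Pool.Agent.W5h63.AP.Orb

/-!
# Periodic nilmanifolds of `Ω`-stable diffeomorphisms
-/

set_option autoImplicit false

open scoped Topology ContDiff Manifold
open Set Filter Metric

noncomputable section

namespace Pool.Agent.W5h63.AP

open Pool.Agent.H718R2.G Pool.Agent.R189.NC Pool.Agent.R775.HL Pool.Agent.TH80.OMS

universe u

variable {n : ℕ} {N : Type u} [TopologicalSpace N] [ChartedSpace (V n) N]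
  {G : Type} [Group G] [TopologicalSpace G] {d : ℕ} {ι : G →* Md d}
  {𝔤 : Submodule ℝ (Md d)}

/-- elements of the stabiliser along a one parameter subgroup -/
lemma stab_line {O : Set N} {act : G → N → N} (hact : IsNilAction n N ι O act) {y : N}
    (hy : IsNilPt ι act y) {X : Md d} {c : ℝ → G}
    (hc : ∀ t, ι (c t) = NormedSpace.exp (t • X)) (h : ∀ t, act (c t) y = y) : X = 0 := by
  obtain ⟨u, ⟨D, hD, hden⟩, -⟩ := hy.arith
  have hD0 : (D : ℝ) ≠ 0 := by
    have : 0 < D := hD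
    positivity
  have h1 : ∀ (a b : Fin d) (t : ℝ), ι (u⁻¹ * c t * u) a b = ι (u⁻¹ * c 0 * u) a b := by
    intro a b t
    have hcont : Continuous (fun t : ℝ => (D : ℝ) * ι (u⁻¹ * c t * u) a b) := by
      have e : (fun t : ℝ => (D : ℝ) * ι (u⁻¹ * c t * u) a b) = fun t : ℝ =>
          (D : ℝ) * ∑ j, (∑ i, ι u⁻¹ a i * (NormedSpace.exp (t • X)) i j) * ι u j b := by
        funext t
        rw [map_mul, map_mul, Matrix.mul_apply, ← hc t]
        simp only [Matrix.mul_apply]
      rw [e]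
      have hs : ∀ i j, Continuous fun t : ℝ => (NormedSpace.exp (t • X)) i j := fun i j =>
        (exp_entry_smooth ((LinearMap.id : ℝ →ₗ[ℝ] ℝ).smulRight X) i j).continuous
      refine continuous_const.mul (continuous_finsetSum _ fun j _ => ?_)
      exact (continuous_finsetSum _ fun i _ => continuous_const.mul (hs i j)).mul
        continuous_const
    have hdisc : DiscreteTopology (range (Int.cast : ℤ → ℝ)) :=
      (Int.isClosedEmbedding_coe_real.isEmbedding.toHomeomorph).symm.isEmbedding.discreteTopology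
    have h2 := isPreconnected_univ.constant_of_mapsTo (T := range (Int.cast : ℤ → ℝ)) ⟨hdisc⟩
      hcont.continuousOn (fun t _ => by
        obtain ⟨z, hz⟩ := hden (c t) (h t) a b
        exact ⟨z, hz.symm⟩) (mem_univ t) (mem_univ (0 : ℝ))
    exact mul_left_cancel₀ hD0 h2
  have h3 : ∀ t, c t = c 0 := by
    intro t
    have h4 : ι (u⁻¹ * c t * u) = ι (u⁻¹ * c 0 * u) := by
      ext a b
      exact h1 a b t
    have h5 := hact.rep_inj h4
    have h6 : u * (u⁻¹ * c t * u) * u⁻¹ = u * (u⁻¹ * c 0 * u) * u⁻¹ := by rw [h5]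
    have e : ∀ g : G, u * (u⁻¹ * g * u) * u⁻¹ = g := fun g => by group
    rwa [e, e] at h6
  apply exp_line_inj
  intro t
  rw [← hc t, h3 t, hc 0, zero_smul, smul_zero]

variable [IsManifold (𝓡 n) ∞ N] [T2Space N] [CompactSpace N]

/-- the orbit of `y`, parametrised by the Lie algebra -/
lemma nil_frame {O : Set N} {act : G → N → N} (hact : IsNilAction n N ι O act) {y : N}
    (hyO : y ∈ O) (hy : IsNilPt ι act y) (h𝔤 : IsLieAlg ι 𝔤) :
    ∃ J : 𝔤 →ₗ[ℝ] V n, Function.Injective J ∧ ∀ (f : N → N) (A : 𝔤 →ₗ[ℝ] 𝔤),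
      (∀ (X : 𝔤) (g g' : G), ι g = NormedSpace.exp (X : Md d) →
        ι g' = NormedSpace.exp ((A X : 𝔤) : Md d) → f (act g y) = act g' y) →
      ∀ D : V n →L[ℝ] V n,
        HasFDerivAt (fun v => (chartAt (V n) y) (f ((chartAt (V n) y).symm v))) D
          ((chartAt (V n) y) y) → (D : V n →ₗ[ℝ] V n) ∘ₗ J = J ∘ₗ A := by
  classical
  let k := Module.finrank ℝ 𝔤
  let e : V k ≃ₗ[ℝ] 𝔤 := LinearEquiv.ofFinrankEq (V k) 𝔤 (by rw [finrank_euclideanSpace_fin])
  choose c hc using fun s : V k => h𝔤.exp_mem (e s)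
  have hcsm : ∀ (j : ℕ) (l : V j →ₗ[ℝ] V k) (a b : Fin d),
      ContDiff ℝ ∞ fun s => ι (c (l s)) a b := by
    intro j l a b
    have h1 := exp_entry_smooth (d := d) (𝔤.subtype ∘ₗ (e : V k →ₗ[ℝ] 𝔤) ∘ₗ l) a b
    have h2 : (fun s => ι (c (l s)) a b) =
        fun s => (NormedSpace.exp ((𝔤.subtype ∘ₗ (e : V k →ₗ[ℝ] 𝔤) ∘ₗ l) s)) a b := by
      funext s
      rw [hc]
      rfl
    rw [h2]
    exact h1
  have hc0 : c 0 = 1 := by
    apply hact.rep_inj
    rw [hc, map_zero, map_one, Submodule.coe_zero, NormedSpace.exp_zero]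
  let θ : V k → N := fun s => act (c s) y
  have hθ0 : θ 0 = y := by
    show act (c 0) y = y
    rw [hc0, hact.one y hyO]
  have hθsm : ContMDiff (𝓡 k) (𝓡 n) ∞ θ := by
    have h1 := hact.smooth k c (fun a b => hcsm k LinearMap.id a b)
    have h2 : ContMDiffOn (𝓡 k) (𝓡 n) ∞ (fun s : V k => act (c s) y) univ :=
      h1.comp (f := fun s : V k => ((s, y) : V k × N))
        ((contMDiff_id.prodMk contMDiff_const).contMDiffOn) (fun s _ => ⟨mem_univ _, hyO⟩)
    exact contMDiffOn_univ.1 h2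
  obtain ⟨J, hJ⟩ := curve_deriv hθsm hθ0
  have hadd : ∀ (w : V k) (s t : ℝ), c ((s + t) • w) = c (s • w) * c (t • w) := by
    intro w s t
    apply hact.rep_inj
    rw [map_mul, hc, hc, hc, map_smul, map_smul, map_smul, Submodule.coe_smul, Submodule.coe_smul,
      Submodule.coe_smul, exp_add_smul]
  have hJinj : Function.Injective J := by
    rw [injective_iff_map_eq_zero]
    intro w hw
    let l : V 1 →ₗ[ℝ] V k := ((EuclideanSpace.proj (𝕜 := ℝ) (0 : Fin 1) : V 1 →L[ℝ] ℝ) :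
      V 1 →ₗ[ℝ] ℝ).smulRight w
    have hl : ∀ s : V 1, l s = (s 0) • w := fun s => rfl
    have hconst := flow_const (n := n) (O := O) hact.isOpen
      (P := fun t x => act (c (l t)) x) (fun t x hx => hact.maps _ x hx)
      (fun x hx => by
        show act (c (l 0)) x = x
        rw [map_zero, hc0, hact.one x hx])
      (fun s t x hx => by
        show act (c (l (s + t))) x = act (c (l s)) (act (c (l t)) x)
        rw [← hact.mul _ _ x hx, hl, hl, hl, PiLp.add_apply, hadd])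
      (hact.smooth 1 (fun t => c (l t)) (fun a b => hcsm 1 l a b)) hyO (by
        have e6 : HasDerivAt (fun u : ℝ => l (u • e1)) w 0 := by
          have e7 : (fun u : ℝ => l (u • e1)) = fun u : ℝ => u • w := by
            funext u
            rw [hl, smul_e1_apply]
          rw [e7]
          simpa using (hasDerivAt_id (0 : ℝ)).smul_const w
        have hJ' : HasFDerivAt (fun s => (chartAt (V n) y) (θ s)) J (l ((0 : ℝ) • e1)) := by
          rw [zero_smul, map_zero]; exact hJ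
        have h3 := hJ'.comp_hasDerivAt (0 : ℝ) e6
        rw [hw] at h3
        exact h3)
    have h4 : ((e w : 𝔤) : Md d) = 0 := by
      refine stab_line hact hy (c := fun t : ℝ => c (t • w)) (fun t => ?_) (fun t => ?_)
      · rw [hc, map_smul, Submodule.coe_smul]
      · have h5 := hconst t
        rw [hl, smul_e1_apply] at h5
        exact h5
    have h6 : e w = 0 := Subtype.ext h4
    exact (LinearEquiv.map_eq_zero_iff e).1 h6
  refine ⟨(J : V k →ₗ[ℝ] V n) ∘ₗ (e.symm : 𝔤 →ₗ[ℝ] V k), hJinj.comp e.symm.injective, ?_⟩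
  intro f A hf D hD
  have h7 := curve_inter (A := (e.symm : 𝔤 →ₗ[ℝ] V k) ∘ₗ A ∘ₗ (e : V k →ₗ[ℝ] 𝔤))
    hθsm.continuous.continuousAt hθ0 hJ (f := f) (fun s => by
      refine hf (e s) _ _ (hc s) ?_
      rw [hc]
      congr 2
      show e (e.symm (A (e s))) = _
      rw [e.apply_symm_apply]) hD
  ext1 X
  have h8 := LinearMap.congr_fun h7 (e.symm X)
  show D (J (e.symm X)) = J (e.symm (A X))
  have h9 : D (J (e.symm X)) = J (e.symm (A (e (e.symm X)))) := h8
  rw [h9, e.apply_symm_apply]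

/-- **Periodic nilmanifolds.** The return map of an `Ω`-stable diffeomorphism to a periodic nilmanifold,
if it is affine, has hyperbolic linear part. -/
theorem nil_hyp (r : ℕ∞) (hr : 1 ≤ r) {F : DiffM n N r} (hF : OmegaStable n N r F)
    {O : Set N} {act : G → N → N} (hact : IsNilAction n N ι O act) {y : N}
    (hyO : y ∈ O) (hy : IsNilPt ι act y) (h𝔤 : IsLieAlg ι 𝔤) {m : ℕ} (hm : 1 ≤ m)
    {φ : G →* G} {h : G} (hret : ∀ g, F^[m] (act g y) = act (h * φ g) y)
    (hdis : ∀ i, 1 ≤ i → i < m → ∀ g g', F^[i] (act g y) ≠ act g' y)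
    {L : 𝔤 →ₗ[ℝ] 𝔤} (hL : IsDiff ι 𝔤 φ L) : HypLin L := by
  classical
  obtain ⟨U, hU, hFU, hconj⟩ := hF
  obtain ⟨F', hF'U, ⟨h', hh'⟩, k, hk, hper⟩ := pq_all (r := r) hact hyO hy hm φ h F hret hdis U hU hFU
  have hst := omegaStable_near hU hconj hF'U
  have hhyp := Pool.Agent.Y504.CO.Gen.stable_hyp hr hst y ⟨m * k, Nat.mul_pos hm hk, hper⟩
  -- iterates on the leaf
  have hit : ∀ j : ℕ, ∃ w : G, ∀ g : G, F'^[m * j] (act g y) = act (w * φ^[j] g) y := by
    intro j
    induction j with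
    | zero => exact ⟨1, fun g => by rw [one_mul]; rfl⟩
    | succ j ih =>
      obtain ⟨w, hw⟩ := ih
      refine ⟨h' * φ w, fun g => ?_⟩
      rw [Nat.mul_succ, Nat.add_comm, Function.iterate_add_apply, hw, hh', map_mul, mul_assoc,
        Function.iterate_succ_apply' φ]
  obtain ⟨w, hw⟩ := hit k
  have hiter1 : ∀ j : ℕ, φ^[j] 1 = 1 := by
    intro j
    induction j with
    | zero => rfl
    | succ j ih => rw [Function.iterate_succ_apply', ih, map_one]
  have hwy : act w y = y := by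
    have h1 := hw 1
    rw [hact.one y hyO, hper, hiter1, mul_one] at h1
    exact h1.symm
  have hLj : ∀ (j : ℕ) (X : 𝔤) (g : G), ι g = NormedSpace.exp (X : Md d) →
      ι (φ^[j] g) = NormedSpace.exp (((L ^ j) X : 𝔤) : Md d) := by
    intro j
    induction j with
    | zero => intro X g hg; exact hg
    | succ j ih =>
      intro X g hg
      rw [Function.iterate_succ_apply', pow_succ', Module.End.mul_apply]
      exact hL _ _ (ih X g hg)
  obtain ⟨J, hJinj, hJ⟩ := nil_frame hact hyO hy h𝔤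
  obtain ⟨D, hD, hDr⟩ := hhyp.2 (m * k) (Nat.mul_pos hm hk) hper (chartAt (V n) y)
    (IsManifold.chart_mem_maximalAtlas y) (mem_chart_source _ _)
  have h2 := hJ (F'^[m * k]) (Ad h𝔤 w ∘ₗ (L ^ k)) (by
    intro X g g' hg hg'
    rw [hw]
    have h3 : w * φ^[k] g = g' * w := by
      apply hact.rep_inj
      rw [map_mul, map_mul, hLj k X g hg, hg']
      show ι w * NormedSpace.exp (((L ^ k) X : 𝔤) : Md d) =
        NormedSpace.exp (ι w * (((L ^ k) X : 𝔤) : Md d) * ι w⁻¹) * ι w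
      rw [← exp_conj_mul (iota_mul_inv w), mul_assoc, mul_assoc, iota_inv_mul, mul_one]
    rw [h3, hact.mul _ _ y hyO, hwy]) D hD
  have h3 : HypLin (Ad h𝔤 w ∘ₗ (L ^ k)) :=
    hypLin_of_inter (m := 1) hJinj (by rw [pow_one]; exact h2) hDr
  refine hyp_transfer (A := Ad h𝔤 w ∘ₗ (L ^ k)) (k := k) (s := d) (Dfil h𝔤) rfl
    (Dfil_bot hact.uni h𝔤) (Dfil_mono h𝔤) (Dfil_diff h𝔤 hL) ?_ h3
  intro i x hx
  have hLk : ∀ j, (L ^ j) x ∈ Dfil h𝔤 i := by
    intro j
    induction j with
    | zero => exact hx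
    | succ j ih => rw [pow_succ']; exact Dfil_diff h𝔤 hL i _ ih
  exact Submodule.subset_span ⟨w, (L ^ k) x, hLk k, rfl⟩

end Pool.Agent.W5h63.AP
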