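import Mathlib
import Pool.Agent.W5h63.AP.MExp

/-!
# The logarithm of unipotent matrices
-/

set_option autoImplicit false
set_option backward.isDefEq.respectTransparency false

open scoped ContDiff Topology
open Filter

noncomputable section

namespace Pool.Agent.W5h63.AP

open Pool.Agent.R189.NC

variable {d : ℕ}

/-- the polynomial `log` -/
def lg (U : Md d) : Md d := ∑ k ∈ Finset.range d, ((-1 : ℝ) ^ k / (k + 1)) • (U - 1) ^ (k + 1)

lemma Up.mul {j l : ℕ} {M M' : Md d} (hM : M ∈ Up d j) (hM' : M' ∈ Up d l) :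
    M * M' ∈ Up d (j + l) := by
  intro a b hab
  rw [Matrix.mul_apply]
  refine Finset.sum_eq_zero fun c _ => ?_
  rcases lt_or_ge (c : ℕ) (a + j) with h | h
  · rw [hM a c h, zero_mul]
  · rw [hM' c b (by omega), mul_zero]

lemma Up.one : (1 : Md d) ∈ Up d 0 := by
  intro a b hab
  rw [Matrix.one_apply_ne]
  intro h
  rw [h] at hab
  omega

lemma Up.pow {M : Md d} (hM : M ∈ Up d 1) (k : ℕ) : M ^ k ∈ Up d k := by
  induction k with
  | zero => rw [pow_zero]; exact Up.one
  | succ k ih => rw [pow_succ]; exact Up.mul ih hM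

lemma Up.pow_zero' {M : Md d} (hM : M ∈ Up d 1) : M ^ d = 0 := by
  ext a b
  exact Up.pow hM d a b (by have := b.2; omega)

lemma Uni.sub_one {M : Md d} (hM : Uni M) : M - 1 ∈ Up d 1 := by
  intro a b hab
  rw [Matrix.sub_apply, hM a b (by show (b : ℕ) ≤ a; omega), Matrix.one_apply, sub_self]

lemma lg_one : lg (1 : Md d) = 0 := by
  unfold lg
  refine Finset.sum_eq_zero fun k _ => ?_
  rw [sub_self, zero_pow (Nat.succ_ne_zero k), smul_zero]

section

open scoped Matrix.Norms.Operator

lemma pow_deriv {X : Md d} (k : ℕ) (t : ℝ) :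
    HasDerivAt (fun t : ℝ => (NormedSpace.exp (t • X) - 1) ^ (k + 1))
      (((k : ℝ) + 1) • ((NormedSpace.exp (t • X) - 1) ^ k * (NormedSpace.exp (t • X) * X))) t := by
  have h1 : HasDerivAt (fun t : ℝ => NormedSpace.exp (t • X) - 1) (NormedSpace.exp (t • X) * X) t :=
    (hasDerivAt_exp_smul_const (𝕂 := ℝ) X t).sub_const 1
  have hc1 : Commute (NormedSpace.exp (t • X)) X := by
    have h2 := hasDerivAt_exp_smul_const (𝕂 := ℝ) X t
    have h3 := hasDerivAt_exp_smul_const' (𝕂 := ℝ) X t
    exact h2.unique h3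
  have hc2 : Commute (NormedSpace.exp (t • X) - 1) (NormedSpace.exp (t • X) * X) :=
    (((Commute.refl _).mul_right hc1).sub_left (Commute.one_left _))
  induction k with
  | zero =>
    simp only [zero_add, pow_one, pow_zero, one_mul, Nat.cast_zero, one_smul]
    exact h1
  | succ k ih =>
    have h4 := ih.mul h1
    have e1 : (fun t : ℝ => (NormedSpace.exp (t • X) - 1) ^ (k + 1 + 1)) =
        (fun t : ℝ => (NormedSpace.exp (t • X) - 1) ^ (k + 1)) *
          (fun t : ℝ => NormedSpace.exp (t • X) - 1) := by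
      funext t
      exact pow_succ _ _
    rw [e1]
    refine h4.congr_deriv ?_
    push_cast
    rw [smul_mul_assoc, mul_assoc, ← hc2.eq, ← mul_assoc, ← pow_succ, add_smul ((k : ℝ) + 1) (1 : ℝ), one_smul]

lemma lg_exp {X : Md d} (hX : ∀ t : ℝ, NormedSpace.exp (t • X) - 1 ∈ Up d 1) :
    lg (NormedSpace.exp X) = X := by
  have h1 : ∀ t : ℝ, HasDerivAt (fun t : ℝ => lg (NormedSpace.exp (t • X)) - t • X) 0 t := by
    intro t
    have h2 : HasDerivAt (fun t : ℝ => lg (NormedSpace.exp (t • X)))
        (∑ k ∈ Finset.range d, ((-1 : ℝ) ^ k / (k + 1)) • (((k : ℝ) + 1) •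
          ((NormedSpace.exp (t • X) - 1) ^ k * (NormedSpace.exp (t • X) * X)))) t := by
      unfold lg
      exact HasDerivAt.fun_sum fun k _ => (pow_deriv (X := X) k t).fun_const_smul _
    have h3 : HasDerivAt (fun t : ℝ => t • X) X t := by
      simpa using (hasDerivAt_id t).smul_const X
    have h4 := h2.sub h3
    have e1 : (∑ k ∈ Finset.range d, ((-1 : ℝ) ^ k / (k + 1)) • (((k : ℝ) + 1) •
        ((NormedSpace.exp (t • X) - 1) ^ k * (NormedSpace.exp (t • X) * X)))) = X := by
      have e2 : ∀ k ∈ Finset.range d, ((-1 : ℝ) ^ k / (k + 1)) • (((k : ℝ) + 1) •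
          ((NormedSpace.exp (t • X) - 1) ^ k * (NormedSpace.exp (t • X) * X))) =
          (1 - NormedSpace.exp (t • X)) ^ k * (NormedSpace.exp (t • X) * X) := by
        intro k _
        have hk : (k : ℝ) + 1 ≠ 0 := by positivity
        rw [smul_smul, div_mul_cancel₀ _ hk, ← smul_mul_assoc]
        congr 1
        rw [show (1 - NormedSpace.exp (t • X) : Md d) = (-1 : ℝ) • (NormedSpace.exp (t • X) - 1) by
          rw [neg_one_smul, neg_sub], smul_pow]
      rw [Finset.sum_congr rfl e2, ← Finset.sum_mul, ← mul_assoc]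
      have e3 : (∑ k ∈ Finset.range d, (1 - NormedSpace.exp (t • X) : Md d) ^ k) *
          NormedSpace.exp (t • X) = 1 := by
        have e4 := geom_sum_mul (1 - NormedSpace.exp (t • X) : Md d) d
        have e5 : (1 - NormedSpace.exp (t • X) : Md d) ^ d = 0 := by
          have e6 : (1 - NormedSpace.exp (t • X) : Md d) ∈ Up d 1 := by
            have e7 := (Up d 1).neg_mem (hX t)
            rwa [neg_sub] at e7
          exact Up.pow_zero' e6
        rw [e5, zero_sub, sub_sub_cancel_left, mul_neg, neg_inj] at e4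
        exact e4
      rw [e3, one_mul]
    rw [e1, sub_self] at h4
    exact h4
  have h2 := is_const_of_deriv_eq_zero (f := fun t : ℝ => lg (NormedSpace.exp (t • X)) - t • X)
    (fun t => (h1 t).differentiableAt) (fun t => (h1 t).deriv) 1 0
  simp only [one_smul, zero_smul, NormedSpace.exp_zero, sub_zero] at h2
  rw [lg_one] at h2
  exact sub_eq_zero.1 h2

lemma lg_smooth {E : Type*} [NormedAddCommGroup E] [NormedSpace ℝ E] {f : E → Md d}
    (hf : ContDiff ℝ ∞ f) : ContDiff ℝ ∞ fun s => lg (f s) := by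
  unfold lg
  refine ContDiff.sum fun k _ => ?_
  exact ((hf.sub contDiff_const).pow (k + 1)).const_smul _

lemma exp_smooth {E : Type*} [NormedAddCommGroup E] [NormedSpace ℝ E] {f : E → Md d}
    (hf : ContDiff ℝ ∞ f) : ContDiff ℝ ∞ fun s => NormedSpace.exp (f s) := by
  have h1 : ContDiff ℝ ∞ (NormedSpace.exp : Md d → Md d) :=
    contDiff_iff_contDiffAt.2 fun x => (NormedSpace.exp_analytic (𝕂 := ℝ) x).contDiffAt
  exact h1.comp hf

/-- derivative of `lg` of a curve through `1` -/
lemma lg_curve {f : ℝ → Md d} {B : Md d} (hf : HasDerivAt f B 0) (hf0 : f 0 = 1) :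
    HasDerivAt (fun t => lg (f t)) (if 0 < d then B else 0) 0 := by
  have h1 : HasDerivAt (fun t => f t - 1) B 0 := hf.sub_const 1
  have h2 : ∀ k : ℕ, HasDerivAt (fun t => (f t - 1) ^ (k + 1 + 1)) (0 : Md d) 0 := by
    intro k
    induction k with
    | zero =>
      have h3 := h1.mul h1
      rw [hf0, sub_self, mul_zero, zero_mul, add_zero] at h3
      have e1 : (fun t => (f t - 1) ^ (0 + 1 + 1)) = (fun t => f t - 1) * (fun t => f t - 1) := by
        funext t
        show (f t - 1) ^ 2 = (f t - 1) * (f t - 1)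
        rw [pow_two]
      rw [e1]
      exact h3
    | succ k ih =>
      have h3 := ih.mul h1
      rw [zero_mul, hf0, sub_self, zero_pow (Nat.succ_ne_zero _), zero_mul, add_zero] at h3
      have e1 : (fun t => (f t - 1) ^ (k + 1 + 1 + 1)) =
          (fun t => (f t - 1) ^ (k + 1 + 1)) * (fun t => f t - 1) := by
        funext t
        exact pow_succ _ _
      rw [e1]
      exact h3
  unfold lg
  have h4 : HasDerivAt (fun t => ∑ k ∈ Finset.range d,
      ((-1 : ℝ) ^ k / (k + 1)) • (f t - 1) ^ (k + 1))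
      (∑ k ∈ Finset.range d, ((-1 : ℝ) ^ k / (k + 1)) • (if k = 0 then B else 0)) 0 := by
    refine HasDerivAt.fun_sum fun k _ => ?_
    refine HasDerivAt.fun_const_smul _ ?_
    rcases k with _ | k
    · simp only [zero_add, pow_one, if_true]
      exact h1
    · rw [if_neg (Nat.succ_ne_zero k)]
      exact h2 k
  refine h4.congr_deriv ?_
  rcases Nat.eq_zero_or_pos d with h | h
  · subst h
    simp
  · rw [if_pos h, Finset.sum_eq_single_of_mem 0 (Finset.mem_range.2 h)]
    · simp
    · intro k _ hk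
      rw [if_neg hk, smul_zero]

end

end Pool.Agent.W5h63.AP
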