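import Mathlib
import Pool.Agent.R189.NC.Step
import Pool.Agent.W5h63.AP.Log

/-!
# Solving `a⁻¹ h φ(a) = h'` in a unipotent group, and periodic points of affine maps
-/

set_option autoImplicit false
set_option backward.isDefEq.respectTransparency false

open scoped ContDiff Topology
open Filter Set

noncomputable section

namespace Pool.Agent.W5h63.AP

open Pool.Agent.H718R2.G Pool.Agent.R189.NC

variable {G : Type} [Group G] {d : ℕ} {ι : G →* Md d} {𝔤 : Submodule ℝ (Md d)}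

lemma iota_inv_exp {X : Md d} {g : G} (hg : ι g = NormedSpace.exp X) :
    ι g⁻¹ = NormedSpace.exp (-X) := by
  have h1 : ι g * NormedSpace.exp (-X) = 1 := by
    rw [hg]
    have h2 := exp_add_smul X 1 (-1)
    rw [add_neg_cancel, zero_smul, NormedSpace.exp_zero, one_smul, neg_one_smul] at h2
    exact h2.symm
  have h3 : ι g⁻¹ * (ι g * NormedSpace.exp (-X)) = ι g⁻¹ := by rw [h1, mul_one]
  rw [← mul_assoc, iota_inv_mul, one_mul] at h3
  exact h3.symm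

lemma lg_iota (hU : ∀ g, Uni (ι g)) (h𝔤 : IsLieAlg ι 𝔤) (g : G) :
    ∃ Z : 𝔤, ι g = NormedSpace.exp (Z : Md d) ∧ lg (ι g) = Z := by
  obtain ⟨Z, hZ, hg⟩ := h𝔤.log g
  refine ⟨⟨Z, hZ⟩, hg, ?_⟩
  rw [hg]
  refine lg_exp fun t => ?_
  obtain ⟨g', hg'⟩ := (h𝔤.mem_iff Z).1 hZ t
  rw [← hg']
  exact Uni.sub_one (hU g')

open scoped Matrix.Norms.Operator in
/-- **Local surjectivity** of `a ↦ a⁻¹ h φ(a)`. -/
theorem nil_solve (hU : ∀ g, Uni (ι g)) (hinjι : Function.Injective ι) (h𝔤 : IsLieAlg ι 𝔤)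
    {φ : G →* G} {L : 𝔤 →ₗ[ℝ] 𝔤} (hL : IsDiff ι 𝔤 φ L) (h : G)
    (hinj : Function.Injective (L - Ad h𝔤 h⁻¹)) {k : ℕ} (e : V k ≃ₗ[ℝ] 𝔤) {c : V k → G}
    (hc : ∀ s, ι (c s) = NormedSpace.exp ((e s : 𝔤) : Md d)) {W : Set (V k)} (hW : W ∈ 𝓝 0) :
    ∀ᶠ M in 𝓝 (ι h), ∀ h' : G, ι h' = M → ∃ s ∈ W, (c s)⁻¹ * h * φ (c s) = h' := by
  classical
  rcases Nat.eq_zero_or_pos d with hd | hd
  · -- trivial case
    subst hd
    refine Eventually.of_forall fun M h' _ => ⟨0, mem_of_mem_nhds hW, ?_⟩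
    apply hinjι
    ext a b
    exact a.elim0
  -- the linear extension of `e⁻¹`
  obtain ⟨P, hP⟩ := LinearMap.exists_extend (e.symm : 𝔤 →ₗ[ℝ] V k)
  have hPc : ∀ X : 𝔤, P (X : Md d) = e.symm X := fun X => LinearMap.congr_fun hP X
  have hPcont : ContDiff ℝ ∞ P := (LinearMap.toContinuousLinearMap P).contDiff
  let i : V k →ₗ[ℝ] Md d := 𝔤.subtype ∘ₗ (e : V k →ₗ[ℝ] 𝔤)
  let l : V k →ₗ[ℝ] Md d := 𝔤.subtype ∘ₗ L ∘ₗ (e : V k →ₗ[ℝ] 𝔤)
  have hi : ContDiff ℝ ∞ i := (LinearMap.toContinuousLinearMap i).contDiff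
  have hl : ContDiff ℝ ∞ l := (LinearMap.toContinuousLinearMap l).contDiff
  obtain ⟨Ξ, hΞ⟩ : ∃ Ξ : V k → Md d, Ξ = fun s => ι h⁻¹ * NormedSpace.exp (-(i s)) * ι h *
    NormedSpace.exp (l s) := ⟨_, rfl⟩
  have hΞsm : ContDiff ℝ ∞ Ξ := by
    rw [hΞ]
    exact ((contDiff_const.mul (exp_smooth hi.neg)).mul contDiff_const).mul (exp_smooth hl)
  have hΞι : ∀ s, Ξ s = ι (h⁻¹ * (c s)⁻¹ * h * φ (c s)) := by
    intro s
    rw [hΞ]
    simp only
    rw [map_mul, map_mul, map_mul, iota_inv_exp (hc s), hL (e s) (c s) (hc s)]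
    rfl
  obtain ⟨ζ, hζ⟩ : ∃ ζ : V k → V k, ζ = fun s => P (lg (Ξ s)) := ⟨_, rfl⟩
  have hζsm : ContDiff ℝ ∞ ζ := by
    rw [hζ]
    exact hPcont.comp (lg_smooth hΞsm)
  have hζe : ∀ s, Ξ s = NormedSpace.exp ((e (ζ s) : 𝔤) : Md d) := by
    intro s
    obtain ⟨Z, hZ1, hZ2⟩ := lg_iota hU h𝔤 (h⁻¹ * (c s)⁻¹ * h * φ (c s))
    rw [← hΞι] at hZ1 hZ2
    have h1 : ζ s = e.symm Z := by
      rw [hζ]
      simp only
      rw [hZ2, hPc]
    rw [h1, e.apply_symm_apply]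
    exact hZ1
  have hΞ0 : Ξ 0 = 1 := by
    rw [hΞ]
    simp only [map_zero, neg_zero, NormedSpace.exp_zero, mul_one]
    exact iota_inv_mul h
  have hζ0 : ζ 0 = 0 := by
    rw [hζ]
    simp only
    rw [hΞ0, lg_one, map_zero]
  -- the derivative
  have hder : ∀ v : V k, fderiv ℝ ζ 0 v = e.symm ((L - Ad h𝔤 h⁻¹) (e v)) := by
    intro v
    have h1 : HasDerivAt (fun t : ℝ => ζ (t • v)) (fderiv ℝ ζ 0 v) 0 := by
      have h2 : HasFDerivAt ζ (fderiv ℝ ζ 0) ((0 : ℝ) • v) := by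
        rw [zero_smul]
        exact (hζsm.differentiable (by simp) 0).hasFDerivAt
      have h3 : HasDerivAt (fun t : ℝ => t • v) v 0 := by
        simpa using (hasDerivAt_id (0 : ℝ)).smul_const v
      exact h2.comp_hasDerivAt (0 : ℝ) h3
    have h4 : HasDerivAt (fun t : ℝ => NormedSpace.exp (-(i (t • v)))) (-(i v)) 0 := by
      have h5 := hasDerivAt_exp_smul_const (𝕂 := ℝ) (-(i v)) 0
      rw [zero_smul, NormedSpace.exp_zero, one_mul] at h5
      have e1 : (fun t : ℝ => NormedSpace.exp (-(i (t • v)))) =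
          fun t : ℝ => NormedSpace.exp (t • (-(i v))) := by
        funext t
        rw [map_smul, smul_neg]
      rw [e1]
      exact h5
    have h6 : HasDerivAt (fun t : ℝ => NormedSpace.exp (l (t • v))) (l v) 0 := by
      have h5 := hasDerivAt_exp_smul_const (𝕂 := ℝ) (l v) 0
      rw [zero_smul, NormedSpace.exp_zero, one_mul] at h5
      have e1 : (fun t : ℝ => NormedSpace.exp (l (t • v))) =
          fun t : ℝ => NormedSpace.exp (t • (l v)) := by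
        funext t
        rw [map_smul]
      rw [e1]
      exact h5
    have h7 : HasDerivAt (fun t : ℝ => Ξ (t • v)) (l v - ι h⁻¹ * i v * ι h) 0 := by
      have h8 := ((h4.const_mul (ι h⁻¹)).mul_const (ι h)).mul h6
      have e1 : (fun t : ℝ => Ξ (t • v)) = ((fun t : ℝ => ι h⁻¹ * NormedSpace.exp (-(i (t • v))) *
          ι h) * fun t : ℝ => NormedSpace.exp (l (t • v))) := by
        rw [hΞ]
        rfl
      rw [e1]
      refine h8.congr_deriv ?_
      simp only [zero_smul, map_zero, neg_zero, NormedSpace.exp_zero, mul_one]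
      rw [iota_inv_mul, one_mul, mul_neg, neg_mul]
      abel
    have h9 := lg_curve h7 (by rw [zero_smul, hΞ0])
    rw [if_pos hd] at h9
    have h10 : HasDerivAt (fun t : ℝ => ζ (t • v)) (P (l v - ι h⁻¹ * i v * ι h)) 0 := by
      have h11 := (LinearMap.toContinuousLinearMap P).hasFDerivAt
        (x := lg (Ξ ((0 : ℝ) • v))) |>.comp_hasDerivAt (0 : ℝ) h9
      rw [hζ]
      exact h11
    rw [h1.unique h10]
    have h12 : l v - ι h⁻¹ * i v * ι h = (((L - Ad h𝔤 h⁻¹) (e v) : 𝔤) : Md d) := by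
      rw [LinearMap.sub_apply, Submodule.coe_sub, Ad_coe, inv_inv]
      rfl
    rw [h12, hPc]
  have hsurj : (fderiv ℝ ζ 0).range = ⊤ := by
    have h1 : Function.Injective (fderiv ℝ ζ 0 : V k →ₗ[ℝ] V k) := by
      intro v v' hv
      have hv' : fderiv ℝ ζ 0 v = fderiv ℝ ζ 0 v' := hv
      rw [hder, hder] at hv'
      exact e.injective (hinj (e.symm.injective hv'))
    exact LinearMap.range_eq_top.2 (LinearMap.injective_iff_surjective.1 h1)
  have hstrict : HasStrictFDerivAt ζ (fderiv ℝ ζ 0) 0 :=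
    hζsm.contDiffAt.hasStrictFDerivAt (by simp)
  have hmap := hstrict.map_nhds_eq_of_surj hsurj
  rw [hζ0] at hmap
  have hWi : ζ '' W ∈ 𝓝 (0 : V k) := by
    rw [← hmap]
    exact image_mem_map hW
  have hcont : Continuous fun M : Md d => P (lg (ι h⁻¹ * M)) := by
    have h1 : ContDiff ℝ ∞ fun M : Md d => P (lg (ι h⁻¹ * M)) :=
      hPcont.comp (lg_smooth (contDiff_const.mul contDiff_id))
    exact h1.continuous
  have hev : ∀ᶠ M in 𝓝 (ι h), P (lg (ι h⁻¹ * M)) ∈ ζ '' W := by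
    have h0 : P (lg (ι h⁻¹ * ι h)) = 0 := by rw [iota_inv_mul, lg_one, map_zero]
    have h1 := hcont.tendsto (ι h)
    rw [h0] at h1
    exact h1 hWi
  filter_upwards [hev] with M hM h' hh'
  obtain ⟨s, hsW, hs⟩ := hM
  refine ⟨s, hsW, ?_⟩
  obtain ⟨Z, hZ1, hZ2⟩ := lg_iota hU h𝔤 (h⁻¹ * h')
  rw [← hh', ← map_mul, hZ2, hPc] at hs
  have h1 := hζe s
  rw [hs, e.apply_symm_apply, ← hZ1, hΞι] at h1
  have h2 := hinjι h1
  have h3 : h * (h⁻¹ * (c s)⁻¹ * h * φ (c s)) = h * (h⁻¹ * h') := by rw [h2]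
  rw [mul_inv_cancel_left] at h3
  rw [← h3]
  group

end Pool.Agent.W5h63.AP
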