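import Mathlib
import Pool.Agent.W5h63.AP.Nil
import Pool.Agent.W5h63.AP.Solve

/-!
# Density of the periodic points near periodic nilmanifolds with hyperbolic linear part
-/

set_option autoImplicit false

open scoped Topology ContDiff Manifold
open Set Filter Metric

noncomputable section

namespace Pool.Agent.W5h63.AP

open Pool.Agent.H718R2.G Pool.Agent.R774.ClStmt Pool.Agent.R774.Cl Pool.Agent.R189.NC
  Pool.Agent.R775.HL Pool.Agent.TH80.OMS Pool.Agent.R774.OS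

universe u

section lin

lemma sub_one_inj {E : Type} [AddCommGroup E] [Module ℝ E] [FiniteDimensional ℝ E]
    {L : E →ₗ[ℝ] E} (hL : HypLin L) :
    Function.Injective (L - LinearMap.id : E →ₗ[ℝ] E) := by
  rw [injective_iff_map_eq_zero]
  intro x hx
  have h1 : L x = x := sub_eq_zero.1 hx
  have h2 := qop_inj_of_hyp hL 0
  rw [Real.cos_zero] at h2
  refine (injective_iff_map_eq_zero _).1 h2 x ?_
  rw [qop_apply, h1, h1]
  module

variable {G : Type} [Group G] {d : ℕ} {ι : G →* Md d} {𝔤 : Submodule ℝ (Md d)}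

lemma sub_ad_inj (hU : ∀ g, Uni (ι g)) (h𝔤 : IsLieAlg ι 𝔤) {φ : G →* G} {L : 𝔤 →ₗ[ℝ] 𝔤}
    (hL : IsDiff ι 𝔤 φ L) (hhyp : HypLin L) (w : G) :
    Function.Injective (L - Ad h𝔤 w) := by
  refine filtration (A := (L - LinearMap.id : 𝔤 →ₗ[ℝ] 𝔤)) (s := d) (Dfil h𝔤) rfl (Dfil_bot hU h𝔤) ?_ ?_
    (sub_one_inj hhyp)
  · intro i x hx
    exact (Dfil h𝔤 i).sub_mem (Dfil_diff h𝔤 hL i x hx) hx
  · intro i x hx
    have e1 : (L - LinearMap.id : 𝔤 →ₗ[ℝ] 𝔤) x - (L - Ad h𝔤 w) x = Ad h𝔤 w x - x := by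
      show (L x - x) - (L x - Ad h𝔤 w x) = _
      abel
    rw [e1]
    exact Submodule.subset_span ⟨w, x, hx, rfl⟩

end lin

variable {n : ℕ} {N : Type u} [TopologicalSpace N] [ChartedSpace (V n) N]
  {G : Type} [Group G] [TopologicalSpace G] {d : ℕ} {ι : G →* Md d}
  {𝔤 : Submodule ℝ (Md d)}

/-- **Density of the periodic points.** If `f (g y) = h φ(g) y` on the nilmanifold `G y`, and the linear
part of `φ` is hyperbolic, then there are periodic points `a y` of `f` near `y`. -/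
theorem nil_dense {O : Set N} {act : G → N → N} (hact : IsNilAction n N ι O act) {y : N}
    (hyO : y ∈ O) (hy : IsNilPt ι act y) (h𝔤 : IsLieAlg ι 𝔤) {f : N → N}
    (hf : Function.Injective f) {φ : G →* G} {h : G}
    (hret : ∀ g, f (act g y) = act (h * φ g) y) {L : 𝔤 →ₗ[ℝ] 𝔤} (hL : IsDiff ι 𝔤 φ L)
    (hhyp : HypLin L) {W : Set N} (hW : W ∈ 𝓝 y) :
    ∃ x ∈ W, ∃ j : ℕ, 1 ≤ j ∧ f^[j] x = x := by
  classical
  -- the parametrisation of the orbit
  let k := Module.finrank ℝ 𝔤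
  let e : V k ≃ₗ[ℝ] 𝔤 := LinearEquiv.ofFinrankEq (V k) 𝔤 (by rw [finrank_euclideanSpace_fin])
  choose c hc using fun s : V k => h𝔤.exp_mem (e s)
  have hcsm : ∀ (a b : Fin d), ContDiff ℝ ∞ fun s => ι (c s) a b := by
    intro a b
    have h1 := exp_entry_smooth (d := d) (𝔤.subtype ∘ₗ (e : V k →ₗ[ℝ] 𝔤)) a b
    have h2 : (fun s => ι (c s) a b) =
        fun s => (NormedSpace.exp ((𝔤.subtype ∘ₗ (e : V k →ₗ[ℝ] 𝔤)) s)) a b := by
      funext s
      rw [hc]
      rfl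
    rw [h2]
    exact h1
  have hc0 : c 0 = 1 := by
    apply hact.rep_inj
    rw [hc, map_zero, map_one, Submodule.coe_zero, NormedSpace.exp_zero]
  have hθ : Continuous fun s : V k => act (c s) y := by
    have h1 := hact.smooth k c hcsm
    have h2 : ContMDiffOn (𝓡 k) (𝓡 n) ∞ (fun s : V k => act (c s) y) univ :=
      h1.comp (f := fun s : V k => ((s, y) : V k × N))
        ((contMDiff_id.prodMk contMDiff_const).contMDiffOn) (fun s _ => ⟨mem_univ _, hyO⟩)
    exact (contMDiffOn_univ.1 h2).continuous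
  have hWs : (fun s : V k => act (c s) y) ⁻¹' W ∈ 𝓝 (0 : V k) := by
    refine hθ.continuousAt.preimage_mem_nhds ?_
    show W ∈ 𝓝 (act (c 0) y)
    rw [hc0, hact.one y hyO]
    exact hW
  have hsolve := nil_solve hact.uni hact.rep_inj h𝔤 hL h (sub_ad_inj hact.uni h𝔤 hL hhyp h⁻¹) e hc
    hWs
  -- the stabiliser and the conjugate representation
  let Γ : Subgroup G :=
    { carrier := {g | act g y = y}
      mul_mem' := fun {a b} ha hb => by
        show act (a * b) y = y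
        rw [hact.mul _ _ y hyO, show act b y = y from hb, show act a y = y from ha]
      one_mem' := hact.one y hyO
      inv_mem' := fun {a} ha => by
        show act a⁻¹ y = y
        have h1 : act a⁻¹ (act a y) = y := by
          rw [← hact.mul _ _ y hyO, inv_mul_cancel, hact.one y hyO]
        rwa [show act a y = y from ha] at h1 }
  obtain ⟨u, ⟨D, hD, hden⟩, ⟨q, hq, hcong⟩⟩ := hy.arith
  let ι' : G →* Md d :=
    { toFun := fun g => ι (u⁻¹ * g * u)
      map_one' := by rw [mul_one, inv_mul_cancel, map_one]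
      map_mul' := fun a b => by
        rw [← map_mul]
        congr 1
        group }
  have hU : ∀ g, Uni (ι' g) := fun g => hact.uni _
  have hΓ : IsArith ι' Γ := ⟨⟨D, hD, fun g hg => hden g hg⟩, ⟨q, hq, fun g hg => hcong g hg⟩⟩
  have hst : ∀ g g', act g y = act g' y ↔ g⁻¹ * g' ∈ Γ := by
    intro g g'
    constructor
    · intro e
      show act (g⁻¹ * g') y = y
      rw [hact.mul _ _ y hyO, ← e, ← hact.mul _ _ y hyO, inv_mul_cancel, hact.one y hyO]
    · intro e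
      have e' : act (g⁻¹ * g') y = y := e
      have h1 : act g' y = act (g * (g⁻¹ * g')) y := by rw [mul_inv_cancel_left]
      rw [h1, hact.mul _ _ y hyO, e']
  -- density of the rational points
  have hdense : ∀ l : List G, (∀ g ∈ l, ∃ c : ℝ → G, IsOne ι c ∧ c 1 ∈ Γ ∧ ∃ t, c t = g) →
      ∀ 𝒱 ∈ 𝓝 (ι l.prod), ∃ h', IsRat ι' h' ∧ ι h' ∈ 𝒱 := by
    intro l
    induction l with
    | nil =>
      intro _ 𝒱 h𝒱
      exact ⟨1, IsRat.one, by rw [List.prod_nil] at h𝒱; exact mem_of_mem_nhds h𝒱⟩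
    | cons g l ih =>
      intro hl 𝒱 h𝒱
      obtain ⟨c, hc, hc1, t, ht⟩ := hl g (List.mem_cons_self ..)
      rw [List.prod_cons, map_mul] at h𝒱
      have hmul : Continuous fun p : Md d × Md d => p.1 * p.2 := continuous_mul
      have h1 := hmul.continuousAt (x := (ι g, ι l.prod)) h𝒱
      rw [mem_map, nhds_prod_eq, mem_prod_iff] at h1
      obtain ⟨A, hA, B, hB, hAB⟩ := h1
      obtain ⟨h₂, hr₂, hB₂⟩ := ih (fun g hg => hl g (List.mem_cons_of_mem _ hg)) B hB
      have hcc : Continuous fun t : ℝ => ι (c t) :=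
        continuous_matrix fun a b => (hc.smooth a b).continuous
      have h3 : ∀ᶠ s in 𝓝 t, ι (c s) ∈ A := by
        have h4 := hcc.tendsto t
        simp only [ht] at h4
        exact h4 hA
      obtain ⟨δ, hδ, hδA⟩ := Metric.eventually_nhds_iff_ball.1 h3
      obtain ⟨x, hx1, hx2⟩ := exists_rat_btwn (show t < t + δ by linarith)
      refine ⟨c x * h₂, (rat_one hU hΓ hc.add hc1 x).mul hr₂, ?_⟩
      rw [map_mul]
      refine hAB (mk_mem_prod (hδA x ?_) hB₂)
      rw [mem_ball, Real.dist_eq, abs_lt]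
      constructor <;> linarith
  have hh : h ∈ Subgroup.closure {g | ∃ c : ℝ → G, IsOne ι c ∧ act (c 1) y = y ∧ ∃ t, c t = g} := by
    rw [hy.gen]
    exact Subgroup.mem_top h
  rw [← Subgroup.mem_toSubmonoid, Subgroup.closure_toSubmonoid] at hh
  obtain ⟨l, hl, hlh⟩ := Submonoid.exists_list_of_mem_closure hh
  have hl' : ∀ g ∈ l, ∃ c : ℝ → G, IsOne ι c ∧ c 1 ∈ Γ ∧ ∃ t, c t = g := by
    intro g hg
    rcases hl g hg with ⟨c, hc, hc1, t, ht⟩ | ⟨c, hc, hc1, t, ht⟩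
    · exact ⟨c, hc, hc1, t, ht⟩
    · refine ⟨c, hc, hc1, -t, ?_⟩
      have h1 : c (-t) * c t = 1 := by rw [← hc.add, neg_add_cancel, one_zero hc.add]
      rw [ht] at h1
      exact (eq_inv_of_mul_eq_one_left h1).trans (inv_inv g)
  rw [← hlh] at hsolve
  obtain ⟨h', hr, hV⟩ := hdense l hl' _ hsolve
  obtain ⟨s, hsW, hs⟩ := hV h' rfl
  rw [hlh] at hs
  -- the conjugate map
  have hpf : ∀ b : G, f (act (c s * b) y) = act (c s * (h' * φ b)) y := by
    intro b
    rw [hret, map_mul]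
    congr 1
    rw [← hs]
    group
  obtain ⟨j, hj, hjy⟩ := periodic_of_rat hU hΓ f hf (fun g => act (c s * g) y) (by
    intro g g'
    show act (c s * g) y = act (c s * g') y ↔ _
    rw [hst]
    have e3 : (c s * g)⁻¹ * (c s * g') = g⁻¹ * g' := by group
    rw [e3]) φ h' hpf hr
  refine ⟨act (c s) y, hsW, j, hj, ?_⟩
  beta_reduce at hjy
  rwa [mul_one] at hjy

/-- `act` is a smooth action of the simply connected nilpotent Lie group `G` on the open set `O`, all
orbits in `O` are compact nilmanifolds, and `F` maps them to orbits by affine maps: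
`F (g y) = φ(g) F(y)` with endomorphisms `φ` of `G`, which may depend on `y`. -/
structure NilLeavesD (n : ℕ) (N : Type u) [TopologicalSpace N] [ChartedSpace (V n) N] {G : Type}
    [Group G] [TopologicalSpace G] {d : ℕ} (ι : G →* Md d) (𝔤 : Submodule ℝ (Md d)) (F : N → N)
    (O : Set N) (act : G → N → N) : Prop where
  action : IsNilAction n N ι O act
  pt : ∀ y ∈ O, IsNilPt ι act y
  lie : IsLieAlg ι 𝔤
  affine : ∀ y ∈ O, ∃ (φ : G →* G) (L : 𝔤 →ₗ[ℝ] 𝔤), IsDiff ι 𝔤 φ L ∧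
    ∀ g, F (act g y) = act (φ g) (F y)

/-- The closed set `K` is invariant under `F` and hyperbolic transversally to nilmanifolds which are
mapped to nilmanifolds by affine maps by `F` near `K`. -/
def NilTrans (n : ℕ) {N : Type u} [TopologicalSpace N] [ChartedSpace (V n) N] (F : N → N)
    (K : Set N) : Prop :=
  ∃ (G : Type) (_ : Group G) (_ : TopologicalSpace G) (_ : IsTopologicalGroup G) (d : ℕ)
    (ι : G →* Md d) (𝔤 : Submodule ℝ (Md d)) (O : Set N) (act : G → N → N) (k m : ℕ)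
    (Φ : V k → N → N) (e : N → V m) (B : N → V m →L[ℝ] V m →L[ℝ] ℝ),
    NilLeavesD n N ι 𝔤 F O act ∧ TransHyp (n := n) F O act K Φ e B

lemma NilLeavesD.nilLeaves {F : N → N} {O : Set N} {act : G → N → N}
    (h : NilLeavesD n N ι 𝔤 F O act) : NilLeaves n N F O act :=
  ⟨⟨d, ι, h.action, h.pt⟩, fun y hy => by
    obtain ⟨φ, L, -, hφ⟩ := h.affine y hy
    exact ⟨φ, hφ⟩⟩

lemma NilLeavesD.iter {F : N → N} {O : Set N} {act : G → N → N}
    (h : NilLeavesD n N ι 𝔤 F O act) {y : N} (hy : ∀ i, F^[i] y ∈ O) (i : ℕ) :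
    ∃ (φ : G →* G) (L : 𝔤 →ₗ[ℝ] 𝔤), IsDiff ι 𝔤 φ L ∧
      ∀ g, F^[i] (act g y) = act (φ g) (F^[i] y) := by
  induction i with
  | zero => exact ⟨MonoidHom.id G, LinearMap.id, fun X g hg => hg, fun g => rfl⟩
  | succ i ih =>
    obtain ⟨φ, L, hL, hφ⟩ := ih
    obtain ⟨φ', L', hL', hφ'⟩ := h.affine _ (hy i)
    refine ⟨φ'.comp φ, L' ∘ₗ L, fun X g hg => ?_, fun g => ?_⟩
    · exact hL' (L X) (φ g) (hL X g hg)
    · rw [Function.iterate_succ_apply', hφ, hφ', Function.iterate_succ_apply' F]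
      rfl

variable [IsManifold (𝓡 n) ∞ N] [T2Space N] [CompactSpace N]

theorem nil_mem_closure_per (r : ℕ∞) (hr : 1 ≤ r) {F : DiffM n N r} (hF : OmegaStable n N r F)
    {K : Set N} (hK : NilTrans n F K) {z : N} (hz : ChainRecOn F K z) :
    z ∈ closure (Per F) := by
  classical
  obtain ⟨G, _, _, _, d, ι, 𝔤, O, act, k, m, Φ, e, B, hl, h⟩ := hK
  have hO := orbs_nil hl.nilLeaves
  have hz' := chainRecMod_of hO.one h.sub h.inv hz
  have hF1 : ContMDiff (𝓡 n) (𝓡 n) 1 F := F.contMDiff_toFun.of_le (by exact_mod_cast hr)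
  rw [mem_closure_iff_nhds]
  intro W hW
  obtain ⟨y, hyW, hyO, hq⟩ := leaf_closing hF1 hO h hz' (interior_mem_nhds.2 hW)
  have hact := hl.action
  have hy0 : y ∈ O := hyO 0
  -- the first return
  obtain ⟨q, hqd⟩ : ∃ q, q = Nat.find hq := ⟨_, rfl⟩
  obtain ⟨hq1, p, hp⟩ : 1 ≤ q ∧ ∃ g, F^[q] y = act g y := by rw [hqd]; exact Nat.find_spec hq
  have hmin : ∀ i, 1 ≤ i → i < q → ∀ g g', F^[i] (act g y) ≠ act g' y := by
    intro i hi1 hi2 g g' hgg
    rw [hqd] at hi2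
    apply Nat.find_min hq hi2
    obtain ⟨φ, L, -, hφ⟩ := hl.iter hyO i
    refine ⟨hi1, (φ g)⁻¹ * g', ?_⟩
    rw [hact.mul _ _ y hy0, ← hgg, hφ, ← hact.mul _ _ _ (hyO i), inv_mul_cancel,
      hact.one _ (hyO i)]
  obtain ⟨φ, L, hL, hφ⟩ := hl.iter hyO q
  let φ' : G →* G := (MulAut.conj p⁻¹).toMonoidHom.comp φ
  have hφ' : ∀ g, φ' g = p⁻¹ * φ g * p := by
    intro g
    show (MulAut.conj p⁻¹) (φ g) = _
    rw [MulAut.conj_apply, inv_inv]
  have hret : ∀ g, F^[q] (act g y) = act (p * φ' g) y := by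
    intro g
    rw [hφ, hp, ← hact.mul _ _ y hy0, hφ']
    congr 1
    group
  let L' : 𝔤 →ₗ[ℝ] 𝔤 := Ad hl.lie p⁻¹ ∘ₗ L
  have hL' : IsDiff ι 𝔤 φ' L' := by
    intro X g hg
    rw [hφ', map_mul, map_mul, hL X g hg]
    show _ = NormedSpace.exp (ι p⁻¹ * ((L X : 𝔤) : Md d) * ι p⁻¹⁻¹)
    rw [← exp_conj_mul (iota_mul_inv p⁻¹), inv_inv]
  have hhyp := nil_hyp r hr hF hact hy0 (hl.pt y hy0) hl.lie hq1 hret hmin hL'
  obtain ⟨x, hxW, j, hj, hjx⟩ := nil_dense hact hy0 (hl.pt y hy0) hl.lie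
    (f := F^[q]) (F.injective.iterate q) hret hL' hhyp (isOpen_interior.mem_nhds hyW)
  refine ⟨x, interior_subset hxW, q * j, Nat.mul_pos hq1 hj, ?_⟩
  rw [Function.iterate_mul]
  exact hjx

end Pool.Agent.W5h63.AP
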