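import Mathlib
import Pool.Agent.Y368.SLD.DenseC
import Pool.Agent.W5h63.AP.MExp

/-!
# Paths in the centralisers of the elements of `SL(d, ℝ)`
-/

set_option autoImplicit false
set_option linter.unusedSectionVars false

open scoped Topology ContDiff Manifold
open Set Filter Metric

noncomputable section

namespace Pool.Agent.W5h63.AP

open Pool.Agent.H718R2.G Pool.Agent.Y368.SLD

section path

variable {d : ℕ}

lemma det_exp_pos (X : Md d) : 0 < (NormedSpace.exp X).det := by
  have h1 : NormedSpace.exp X =
      NormedSpace.exp ((1 / 2 : ℝ) • X) * NormedSpace.exp ((1 / 2 : ℝ) • X) := by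
    rw [← exp_add_smul]
    norm_num
  rw [h1, Matrix.det_mul]
  have h4 : NormedSpace.exp ((1 / 2 : ℝ) • X) * NormedSpace.exp ((-(1 / 2) : ℝ) • X) = 1 := by
    rw [← exp_add_smul, add_neg_cancel, zero_smul, NormedSpace.exp_zero]
  have h2 : (NormedSpace.exp ((1 / 2 : ℝ) • X)).det ≠ 0 := by
    intro h0
    have h5 := congrArg Matrix.det h4
    rw [Matrix.det_mul, h0, zero_mul, Matrix.det_one] at h5
    exact zero_ne_one h5
  exact mul_self_pos.2 h2

/-- a one parameter family in the centraliser -/
def cpath (X : Md d) (hd : d ≠ 0) (t : ℝ) : SLd d :=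
  ⟨((NormedSpace.exp (t • X)).det ^ (-(1 / (d : ℝ)))) • NormedSpace.exp (t • X), by
    have h0 := det_exp_pos (t • X)
    rw [Matrix.det_smul, Fintype.card_fin, ← Real.rpow_natCast, ← Real.rpow_mul h0.le]
    have hd' : (d : ℝ) ≠ 0 := by exact_mod_cast hd
    have e : -(1 / (d : ℝ)) * (d : ℝ) = -1 := by field_simp
    rw [e, Real.rpow_neg_one, inv_mul_cancel₀ h0.ne']⟩

lemma cpath_coe (X : Md d) (hd : d ≠ 0) (t : ℝ) : (cpath X hd t).1 =
    ((NormedSpace.exp (t • X)).det ^ (-(1 / (d : ℝ)))) • NormedSpace.exp (t • X) := rfl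

lemma exp_line_cont (X : Md d) : Continuous fun t : ℝ => NormedSpace.exp (t • X) := by
  refine continuous_matrix fun i j => ?_
  exact (exp_entry_smooth ((LinearMap.id : ℝ →ₗ[ℝ] ℝ).smulRight X) i j).continuous

lemma cpath_cont (X : Md d) (hd : d ≠ 0) : Continuous (cpath X hd) := by
  have h1 := exp_line_cont X
  have h2 : Continuous fun t : ℝ => (cpath X hd t).1 := by
    have h3 : Continuous fun t : ℝ => (NormedSpace.exp (t • X)).det := h1.matrix_det
    have h4 : Continuous fun t : ℝ => (NormedSpace.exp (t • X)).det ^ (-(1 / (d : ℝ))) :=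
      h3.rpow_const fun t => Or.inl (det_exp_pos _).ne'
    exact h4.smul h1
  exact continuous_induced_rng.2 h2

lemma exists_path (hd2 : 2 ≤ d) (w : SLd d) : ∃ c : ℝ → SLd d, Continuous c ∧ c 0 = 1 ∧
    (∀ t, c t * w = w * c t) ∧ ∃ᶠ t in 𝓝 (0 : ℝ), c t ≠ 1 := by
  classical
  have hd : d ≠ 0 := by omega
  by_cases hsc : (∀ a b, a ≠ b → w.1 a b = 0) ∧ ∀ a b, w.1 a a = w.1 b b
  · -- a scalar matrix
    obtain ⟨h1, h2⟩ := hsc
    obtain ⟨i, j, hij⟩ : ∃ i j : Fin d, i ≠ j :=
      ⟨⟨0, by omega⟩, ⟨1, by omega⟩, by simp⟩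
    have hc := el_fam (d := d) hij
    refine ⟨fun t => El hij t, ?_, ?_, ?_, ?_⟩
    · have h3 : Continuous fun t : ℝ => (El hij t : SLd d).1 := by
        refine continuous_matrix fun a b => ?_
        have h4 := (hc.smooth a b).continuous
        have h5 : Continuous fun t : ℝ => (EuclideanSpace.single (0 : Fin 1) t : V 1) := by
          have e : (fun t : ℝ => (EuclideanSpace.single (0 : Fin 1) t : V 1)) =
              fun t : ℝ => t • (EuclideanSpace.single (0 : Fin 1) (1 : ℝ) : V 1) := by
            funext t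
            ext i
            simp [Subsingleton.elim i 0]
          rw [e]
          fun_prop
        have h6 := h4.comp h5
        have e7 : ((fun s : V 1 => (El hij (s 0) : SLd d).1 a b) ∘
            fun t : ℝ => (EuclideanSpace.single (0 : Fin 1) t : V 1)) =
            fun t : ℝ => (El hij t : SLd d).1 a b := by
          funext t
          simp
        rw [e7] at h6
        exact h6
      exact continuous_induced_rng.2 h3
    · have h3 := hc.zero
      exact h3
    · intro t
      have h3 : w.1 = (w.1 i i) • (1 : Md d) := by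
        ext a b
        rw [Matrix.smul_apply, Matrix.one_apply]
        by_cases hab : a = b
        · rw [if_pos hab, hab, h2 b i]
          simp
        · rw [if_neg hab, h1 a b hab]
          simp
      apply Subtype.ext
      show (El hij t).1 * w.1 = w.1 * (El hij t).1
      rw [h3]
      simp
    · have h3 : ∀ t : ℝ, t ≠ 0 → El hij t ≠ (1 : SLd d) := by
        intro t ht hE
        have h4 : (El hij t : SLd d).1 i j = (1 : SLd d).1 i j := by rw [hE]
        have h5 : (El hij t : SLd d).1 i j = (1 : Md d) i j + Matrix.single i j t i j := rfl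
        rw [h5, Matrix.single_apply_same] at h4
        have h6 : ((1 : SLd d).1 : Md d) i j = (1 : Md d) i j := rfl
        rw [h6] at h4
        apply ht
        linarith
      have h7 : ∃ᶠ t in 𝓝[≠] (0 : ℝ), El hij t ≠ (1 : SLd d) := by
        refine Eventually.frequently ?_
        filter_upwards [self_mem_nhdsWithin] with t ht
        exact h3 t ht
      exact h7.filter_mono nhdsWithin_le_nhds
  · refine ⟨cpath w.1 hd, cpath_cont w.1 hd, ?_, ?_, ?_⟩
    · apply Subtype.ext
      rw [cpath_coe, zero_smul, NormedSpace.exp_zero, Matrix.det_one, Real.one_rpow, one_smul]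
      rfl
    · intro t
      apply Subtype.ext
      show (cpath w.1 hd t).1 * w.1 = w.1 * (cpath w.1 hd t).1
      rw [cpath_coe, smul_mul_assoc, mul_smul_comm]
      congr 1
      have h1 : Commute (t • w.1) w.1 := (Commute.refl w.1).smul_left t
      have h2 : NormedSpace.exp (t • w.1) * w.1 = w.1 * NormedSpace.exp (t • w.1) := by
        have hw : IsUnit w.1 := (Matrix.isUnit_iff_isUnit_det _).2 (by rw [w.2]; exact isUnit_one)
        have h3 := Matrix.exp_conj w.1 (t • w.1) hw
        have h4 : w.1 * (t • w.1) * w.1⁻¹ = t • w.1 := by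
          rw [← h1.eq, mul_assoc, Matrix.mul_nonsing_inv _ (by rw [w.2]; exact isUnit_one),
            mul_one]
        rw [h4] at h3
        have h5 : NormedSpace.exp (t • w.1) * w.1 =
            w.1 * NormedSpace.exp (t • w.1) * w.1⁻¹ * w.1 := by
          rw [← h3]
        rw [h5, mul_assoc, Matrix.nonsing_inv_mul _ (by rw [w.2]; exact isUnit_one), mul_one]
      exact h2
    · intro hev
      apply hsc
      have h1 : ∀ᶠ t in 𝓝 (0 : ℝ), NormedSpace.exp (t • w.1) =
          ((NormedSpace.exp (t • w.1)).det ^ (-(1 / (d : ℝ))))⁻¹ • (1 : Md d) := by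
        filter_upwards [hev] with t ht
        have ht' : cpath w.1 hd t = 1 := not_not.1 ht
        have h2 : (cpath w.1 hd t).1 = (1 : SLd d).1 := by rw [ht']
        rw [cpath_coe] at h2
        have h3 : ((NormedSpace.exp (t • w.1)).det ^ (-(1 / (d : ℝ)))) ≠ 0 :=
          (Real.rpow_pos_of_pos (det_exp_pos _) _).ne'
        rw [eq_inv_smul_iff₀ h3]
        exact h2
      constructor
      · intro a b hab
        have h2 := exp_entry_deriv w.1 a b
        have h3 : (fun t : ℝ => (NormedSpace.exp (t • w.1)) a b) =ᶠ[𝓝 0] fun _ => 0 := by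
          filter_upwards [h1] with t ht
          rw [ht, Matrix.smul_apply, Matrix.one_apply_ne hab, smul_zero]
        exact (h2.congr_of_eventuallyEq h3.symm).unique (hasDerivAt_const _ _)
      · intro a b
        have h2 := exp_entry_deriv w.1 a a
        have h2' := exp_entry_deriv w.1 b b
        have h3 : (fun t : ℝ => (NormedSpace.exp (t • w.1)) a a) =ᶠ[𝓝 0]
            fun t : ℝ => (NormedSpace.exp (t • w.1)) b b := by
          filter_upwards [h1] with t ht
          rw [ht, Matrix.smul_apply, Matrix.smul_apply, Matrix.one_apply_eq, Matrix.one_apply_eq]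
        exact (h2.congr_of_eventuallyEq h3.symm).unique h2'

end path

end Pool.Agent.W5h63.AP
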