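import Mathlib
import Pool.Agent.Y368.SLD.DenseC
import Pool.Agent.TH80.OMS.Main
import Pool.Agent.W5h63.AP.Path

/-!
# Periodic homogeneous submanifolds `SL(d, ℝ) / Γ` of `Ω`-stable diffeomorphisms
-/

set_option autoImplicit false
set_option linter.unusedSectionVars false

open scoped Topology ContDiff Manifold
open Set Filter Metric

noncomputable section

namespace Pool.Agent.W5h63.AP

open Pool.Agent.H718R2.G Pool.Agent.W564.SC Pool.Agent.TH382.QC Pool.Agent.TH80.CLX
  Pool.Agent.TH382.HS Pool.Agent.Y368.SLD Pool.Agent.TH80.OMS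

universe u


variable {d n : ℕ} {N : Type u} [TopologicalSpace N] [T2Space N] [CompactSpace N]
  [ChartedSpace (V n) N] [IsManifold (𝓡 n) ∞ N] {r : ℕ∞}

/-- All `F` whose return map to the orbit of `y` is `g y ↦ h g k y` have small perturbations of the
same kind with a periodic point in this orbit. -/
def PS (n : ℕ) {N : Type u} [TopologicalSpace N] [ChartedSpace (V n) N] (r : ℕ∞)
    (act : SLd d → N → N) (y : N) (m : ℕ) (k : SLd d) (h : SLd d) : Prop :=
  ∀ F : DiffM n N r, (∀ g, F^[m] (act g y) = act (h * g * k) y) →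
    (∀ i, 1 ≤ i → i < m → ∀ g g', F^[i] (act g y) ≠ act g' y) →
    ∀ U : Set (DiffM n N r), IsOpen[strongTop n N r] U → F ∈ U →
      ∃ F' ∈ U, (∃ h', ∀ g, F'^[m] (act g y) = act (h' * g * k) y) ∧
        ∃ (a : SLd d) (q : ℕ), 1 ≤ q ∧ F'^[m * q] (act a y) = act a y

theorem ps_step {O : Set N} {act : SLd d → N → N} (hact : IsSLdAction d n N O act) {y : N}
    (hyO : y ∈ O) (hlat : IsLatticePt act y) {m : ℕ} (hm : 1 ≤ m) {h k : SLd d} {l : ℕ}
    (hl : 1 ≤ l) (hk : act (k ^ l) y = y) (hcl : GroupClose act y h) : PS n r act y m k h := by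
  intro F hF hdis U hU hFU
  obtain ⟨j, c, hc, s, g, κ, hs, hg, hκ⟩ := hcl
  obtain ⟨H, ε, hε, hH0, hfam, hH⟩ := Pool.Agent.Y368.SLD.pert hact hyO hlat F hdis hc
  have hcv : Cv (fun i => H (s i)) F := by
    have h1 := Cv.fam Pool.Agent.W917.SC.comp hfam hs
    rwa [hH0] at h1
  have hev : ∀ᶠ i in atTop, ‖s i‖ < ε := by
    have h1 := hs.norm
    rw [norm_zero] at h1
    exact h1.eventually (gt_mem_nhds hε)
  obtain ⟨i, ⟨hi, hκi⟩, hiU⟩ := ((hev.and hκ).and (hcv.mem hU hFU)).exists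
  have h1 := hH (s i) hi
  have h2 : ∀ a : SLd d, (H (s i))^[m] (act a y) = act (h * c (s i) * a * k) y := by
    intro a
    rw [h1 a m hm le_rfl, hF]
    congr 1
    group
  have h3 : ∀ (q : ℕ) (a : SLd d),
      (H (s i))^[m * q] (act a y) = act ((h * c (s i)) ^ q * a * k ^ q) y := by
    intro q
    induction q with
    | zero =>
      intro a
      rw [pow_zero, pow_zero, one_mul, mul_one]
      rfl
    | succ q ih =>
      intro a
      rw [Nat.mul_succ, Function.iterate_add_apply, h2, ih, pow_succ, pow_succ']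
      congr 1
      group
  -- powers
  have h4 : ∀ (b : SLd d) (w : N), w ∈ O → act b w = w → ∀ q : ℕ, act (b ^ q) w = w := by
    intro b w hw hb q
    induction q with
    | zero => rw [pow_zero, hact.one w hw]
    | succ q ih => rw [pow_succ, hact.mul _ _ w hw, hb, ih]
  refine ⟨_, hiU, ⟨h * c (s i), h2⟩, g i, κ i * l, Nat.mul_pos hκi.1 hl, ?_⟩
  rw [h3, hact.mul _ _ y hyO]
  have h5 : act (k ^ (κ i * l)) y = y := by
    rw [mul_comm, pow_mul]
    exact h4 _ y hyO hk _
  rw [h5, hact.mul _ _ y hyO, pow_mul]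
  apply h4 _ _ (hact.maps _ y hyO)
  rw [← hact.mul _ _ y hyO]
  exact hκi.2

/-- Limits along homomorphisms. -/
theorem ps_limit {O : Set N} {act : SLd d → N → N} (hact : IsSLdAction d n N O act) {y : N}
    (hyO : y ∈ O) (hlat : IsLatticePt act y) {m : ℕ} (hm : 1 ≤ m) {h k : SLd d}
    {j : ℕ} {c : V j → SLd d} (hc : IsHomFam c)
    (hf : ∃ᶠ t in 𝓝 (0 : V j), PS n r act y m k (h * c t)) : PS n r act y m k h := by
  intro F hF hdis U hU hFU
  obtain ⟨H, ε, hε, hH0, hfam, hH⟩ := Pool.Agent.Y368.SLD.pert hact hyO hlat F hdis hc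
  obtain ⟨s, hs, hPs⟩ := exists_seq_forall_of_frequently hf
  have hcv : Cv (fun i => H (s i)) F := by
    have h1 := Cv.fam Pool.Agent.W917.SC.comp hfam hs
    rwa [hH0] at h1
  have hev : ∀ᶠ i in atTop, ‖s i‖ < ε := by
    have h1 := hs.norm
    rw [norm_zero] at h1
    exact h1.eventually (gt_mem_nhds hε)
  obtain ⟨i, hi, hiU⟩ := (hev.and (hcv.mem hU hFU)).exists
  refine hPs i (H (s i)) ?_ ?_ U hU hiU
  · intro a
    rw [hH (s i) hi a m hm le_rfl, hF]
    congr 1
    group
  · intro i' h1 h2 g g'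
    rw [hH (s i) hi g i' h1 h2.le]
    exact hdis i' h1 h2 _ _

section

variable [NeZero d]

theorem ps_diag {O : Set N} {act : SLd d → N → N} (hact : IsSLdAction d n N O act) {y : N}
    (hyO : y ∈ O) (hlat : IsLatticePt act y) {m : ℕ} (hm : 1 ≤ m) {k : SLd d} {l : ℕ}
    (hl : 1 ≤ l) (hk : act (k ^ l) y = y) (f : Frame d) {h : SLd d} {lam : Fin d → ℂ}
    (hd : Diag f h lam) (hinj : ∀ i j, lam i = lam j → i = j) : PS n r act y m k h := by
  refine ps_limit hact hyO hlat hm f.hom_fam ?_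
  refine (exists_nice f hd hinj).mono ?_
  rintro t ⟨lam', q, hn⟩
  exact ps_step hact hyO hlat hm hl hk (hn.close hact hyO hlat)

theorem ps_list (hd2 : 2 ≤ d) {O : Set N} {act : SLd d → N → N} (hact : IsSLdAction d n N O act)
    {y : N} (hyO : y ∈ O) (hlat : IsLatticePt act y) {m : ℕ} (hm : 1 ≤ m) {k : SLd d} {l : ℕ}
    (hl : 1 ≤ l) (hk : act (k ^ l) y = y) (v : Fin d → ℝ) (L : List (SLd d)) :
    (∀ g ∈ L, ∃ (i j : Fin d) (h : i ≠ j) (t : ℝ), El h t = g) → ∀ h : SLd d,
      (kry v (h * L.prod).1).det ≠ 0 → PS n r act y m k h := by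
  induction L with
  | nil =>
    intro _ h hh
    rw [List.prod_nil, mul_one] at hh
    obtain ⟨c, hc, hf⟩ := exists_regular hd2 hh
    refine ps_limit hact hyO hlat hm hc (hf.mono ?_)
    rintro t ⟨f, lam, hD, hinj⟩
    exact ps_diag hact hyO hlat hm hl hk f hD hinj
  | cons g L ih =>
    intro hL h hh
    obtain ⟨i, j, hij, t₀, hg⟩ := hL g List.mem_cons_self
    have hL' : ∀ g ∈ L, ∃ (i j : Fin d) (h : i ≠ j) (t : ℝ), El h t = g :=
      fun g hg => hL g (List.mem_cons_of_mem _ hg)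
    obtain ⟨q, hq⟩ := pol_exists v hij h L.prod
    have hq0 : q ≠ 0 := by
      intro h0
      apply hh
      rw [List.prod_cons, ← mul_assoc, ← hg, ← hq, h0, Polynomial.eval_zero]
    have hev : ∀ᶠ s in 𝓝[≠] (0 : ℝ), q.eval s ≠ 0 := by
      have h1 : ∀ᶠ s in 𝓝[≠] (0 : ℝ), ∀ α ∈ q.roots.toFinset, s ≠ α := by
        rw [Filter.eventually_all_finset]
        intro α _
        by_cases h0 : α = 0
        · rw [h0]
          exact self_mem_nhdsWithin
        · exact mem_nhdsWithin_of_mem_nhds (isOpen_ne.mem_nhds (Ne.symm h0))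
      filter_upwards [h1] with s hs h0
      exact hs s (by rw [Multiset.mem_toFinset, Polynomial.mem_roots hq0]; exact h0) rfl
    obtain ⟨s, hst, hs⟩ := exists_seq_forall_of_frequently hev.frequently
    have hst' : Tendsto s atTop (𝓝 0) := hst.mono_right nhdsWithin_le_nhds
    have htt : Tendsto (fun m => s m • EuclideanSpace.single (0 : Fin 1) (1 : ℝ)) atTop
        (𝓝 (0 : V 1)) := by
      have h1 := hst'.smul_const (EuclideanSpace.single (0 : Fin 1) (1 : ℝ) : V 1)
      rwa [zero_smul] at h1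
    refine ps_limit hact hyO hlat hm (el_fam hij)
      (htt.frequently (Eventually.frequently (Eventually.of_forall fun a => ?_)))
    have ht0 : (s a • EuclideanSpace.single (0 : Fin 1) (1 : ℝ) : V 1) 0 = s a := by simp
    simp only
    rw [ht0]
    refine ih hL' _ ?_
    rw [← hq]
    exact hs a

theorem ps_all (hd2 : 2 ≤ d) {O : Set N} {act : SLd d → N → N} (hact : IsSLdAction d n N O act)
    {y : N} (hyO : y ∈ O) (hlat : IsLatticePt act y) {m : ℕ} (hm : 1 ≤ m) {k : SLd d} {l : ℕ}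
    (hl : 1 ≤ l) (hk : act (k ^ l) y = y) (h : SLd d) : PS n r act y m k h := by
  obtain ⟨g, hg⟩ := exists_cyc d
  have hcl : Subgroup.closure {x : SLd d | ∃ (i j : Fin d) (h : i ≠ j) (t : ℝ), El h t = x} = ⊤ :=
    gen _ fun i j h t => Subgroup.subset_closure ⟨i, j, h, t, rfl⟩
  have hmem : h⁻¹ * g ∈ Subgroup.closure
      {x : SLd d | ∃ (i j : Fin d) (h : i ≠ j) (t : ℝ), El h t = x} := by
    rw [hcl]
    exact Subgroup.mem_top _
  rw [← Subgroup.mem_toSubmonoid, Subgroup.closure_toSubmonoid] at hmem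
  obtain ⟨L, hL, hLp⟩ := Submonoid.exists_list_of_mem_closure hmem
  refine ps_list hd2 hact hyO hlat hm hl hk (fun _ => 1) L ?_ h ?_
  · intro x hx
    rcases hL x hx with h1 | ⟨i, j, hij, t, ht⟩
    · exact h1
    · refine ⟨i, j, hij, -t, ?_⟩
      have h2 := Matrix.SpecialLinearGroup.transvection_inv hij t
      refine h2.symm.trans ?_
      have h3 : (Matrix.SpecialLinearGroup.transvection hij t : SLd d) = x⁻¹ := ht
      rw [h3, inv_inv]
  · rw [hLp, mul_inv_cancel_left]
    exact hg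

end

/-- Near an `Ω`-stable diffeomorphism there are no homogeneous periodic submanifolds
`SL(d, ℝ) / Γ`. -/
theorem no_sl (hr : 1 ≤ r) {F : DiffM n N r} (hF : OmegaStable n N r F) :
    ∃ U : Set (DiffM n N r), IsOpen[strongTop n N r] U ∧ F ∈ U ∧ ∀ G ∈ U, ∀ d : ℕ, 2 ≤ d →
      ∀ y : N, ¬ IsSLdPer d n N G y := by
  obtain ⟨U, hU, hFU, hfin⟩ := finite_per hr hF
  refine ⟨U, hU, hFU, fun G hG d hd2 y hy => ?_⟩
  have hne : NeZero d := ⟨by omega⟩
  obtain ⟨O, act, hact, hyO, hlat, m, hm, ⟨h, k, l, hl, hk, hFm⟩, hdis⟩ := hy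
  obtain ⟨F', hF'U, ⟨h', hh'⟩, a, q, hq, hper⟩ :=
    ps_all (r := r) hd2 hact hyO hlat hm hl hk h G hFm hdis U hU hG
  have hcy := Pool.Agent.Y368.SLD.act_cont hact hyO
  have h3 : ∀ (q : ℕ) (g : SLd d), F'^[m * q] (act g y) = act (h' ^ q * g * k ^ q) y := by
    intro q
    induction q with
    | zero =>
      intro a
      rw [pow_zero, pow_zero, one_mul, mul_one]
      rfl
    | succ q ih =>
      intro a
      rw [Nat.mul_succ, Function.iterate_add_apply, hh', ih, pow_succ, pow_succ']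
      congr 1
      group
  have h4 : ∀ q : ℕ, act ((k ^ l) ^ q) y = y := by
    intro q
    induction q with
    | zero => rw [pow_zero, hact.one y hyO]
    | succ q ih => rw [pow_succ, hact.mul _ _ y hyO, hk, ih]
  obtain ⟨w, hw⟩ : ∃ w : SLd d, w = h' ^ (q * l) := ⟨_, rfl⟩
  have h5 : ∀ g : SLd d, F'^[m * (q * l)] (act g y) = act (w * g) y := by
    intro g
    rw [h3, hact.mul _ _ y hyO, Nat.mul_comm q l, pow_mul k, h4, Nat.mul_comm l q, ← hw]
  have h6 : act (w * a) y = act a y := by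
    rw [← h5]
    have h7 : ∀ j : ℕ, F'^[m * q * j] (act a y) = act a y := by
      intro j
      induction j with
      | zero => rfl
      | succ j ih => rw [Nat.mul_succ, Function.iterate_add_apply, hper, ih]
    have h8 := h7 l
    rwa [Nat.mul_assoc] at h8
  obtain ⟨c, hcc, hc0, hcw, hcf⟩ := exists_path hd2 w
  have hfix : ∀ t : ℝ, F'^[m * (q * l)] (act (c t * a) y) = act (c t * a) y := by
    intro t
    rw [h5, ← mul_assoc, ← hcw, mul_assoc, hact.mul _ _ y hyO, h6, ← hact.mul _ _ y hyO]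
  -- discreteness of the stabiliser
  obtain ⟨⟨W, hW, hWd⟩, -⟩ := hlat
  have h9 : ∀ᶠ t in 𝓝 (0 : ℝ), a⁻¹ * c t * a ∈ W := by
    have h10 : Continuous fun t : ℝ => a⁻¹ * c t * a := by fun_prop
    have h11 := h10.tendsto 0
    rw [hc0, mul_one, inv_mul_cancel] at h11
    exact h11 hW
  obtain ⟨t, ht1, ht2⟩ := (hcf.and_eventually h9).exists
  have h12 : act (c t * a) y ≠ act a y := by
    intro hcon
    apply ht1
    have h13 : act (a⁻¹ * c t * a) y = y := by
      rw [mul_assoc, hact.mul _ _ y hyO, hcon, ← hact.mul _ _ y hyO, inv_mul_cancel,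
        hact.one y hyO]
    have h14 := hWd _ ht2 h13
    have h15 : a * (a⁻¹ * c t * a) * a⁻¹ = a * 1 * a⁻¹ := by rw [h14]
    have e1 : a * (a⁻¹ * c t * a) * a⁻¹ = c t := by group
    have e2 : a * 1 * a⁻¹ = 1 := by group
    rw [e1, e2] at h15
    exact h15
  have h16 := path_uncountable (fun s : ℝ => act (c (s * t) * a) y)
    (hcy.comp ((hcc.comp (continuous_id.mul continuous_const)).mul continuous_const)) (by
      simp only [zero_mul, one_mul]
      rw [hc0, one_mul]
      exact fun h => h12 h.symm)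
  apply h16
  refine ((hfin F' hF'U (m * (q * l)) (Nat.mul_pos hm (Nat.mul_pos hq hl))).countable).mono ?_
  rintro _ ⟨s, -, rfl⟩
  exact hfix (s * t)

end Pool.Agent.W5h63.AP
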