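import Mathlib
import Pool.Agent.W5h63.AP.Dens
import Pool.Agent.W5h63.AP.SL

/-!
# Homogeneous pieces of `Ω`-stable diffeomorphisms: definitions and main theorem
-/

set_option autoImplicit false

open scoped Topology ContDiff Manifold
open Set Filter Metric

noncomputable section

namespace Pool.Agent.W5h63.AP

open Pool.Agent.H718R2.G Pool.Agent.R774.ClStmt Pool.Agent.R774.Cl Pool.Agent.R189.NC
  Pool.Agent.R775.HL Pool.Agent.TH80.OMS Pool.Agent.R774.OS
open Pool.Agent.Y368.SLD (IsSLdPer)

universe u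

/-- All periodic nilmanifolds of `F` with affine return map have hyperbolic linear part: if the simply
connected nilpotent Lie group `G` with Lie algebra `𝔤` acts smoothly on an open set containing `y`, the
orbit `C = G y` is a compact nilmanifold `G / Γ` which is periodic with period `m` (`F^i(C)` does not meet
`C` for `1 ≤ i < m`), and `F^m` is on `C` the affine map `g y ↦ h φ(g) y` for some `h ∈ G` and some
endomorphism `φ` of `G` with differential `L : 𝔤 → 𝔤`, then no complex eigenvalue of `L` has modulus one.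
Nothing is required of `F` outside of `C, F(C), …, F^(m-1)(C)`. -/
def NilPieces (n : ℕ) {N : Type u} [TopologicalSpace N] [ChartedSpace (V n) N] (F : N → N) : Prop :=
  ∀ (G : Type) (_ : Group G) (_ : TopologicalSpace G) (d : ℕ) (ι : G →* Md d)
    (𝔤 : Submodule ℝ (Md d)) (O : Set N) (act : G → N → N) (y : N) (m : ℕ) (h : G) (φ : G →* G)
    (L : 𝔤 →ₗ[ℝ] 𝔤), IsNilAction n N ι O act → y ∈ O → IsNilPt ι act y → IsLieAlg ι 𝔤 → 1 ≤ m →
    (∀ g, F^[m] (act g y) = act (h * φ g) y) →
    (∀ i, 1 ≤ i → i < m → ∀ g g', F^[i] (act g y) ≠ act g' y) →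
    IsDiff ι 𝔤 φ L → HypLin L

/-- The chain recurrent set of `F` is the disjoint union of finitely many closed invariant sets, each of
which is hyperbolic transversally to compact nilmanifolds mapped to each other by affine maps, or to the
orbits of a compact Lie group which commutes with `F` (for instance of the trivial group: a hyperbolic
set). The nilpotent or compact groups, the dimensions of their orbits and the affine maps may be
different for the different sets. -/
def HomCR (n : ℕ) {N : Type u} [TopologicalSpace N] [ChartedSpace (V n) N] (F : N → N) : Prop :=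
  ∃ (ι : Type) (K : ι → Set N), Finite ι ∧
    (∀ i, NilTrans n F (K i) ∨ ∃ k, CompactTrans n F k (K i)) ∧
    (∀ i j, i ≠ j → Disjoint (K i) (K j)) ∧ ⋃ i, K i = CR F

variable {n : ℕ} {N : Type u} [TopologicalSpace N] [T2Space N] [CompactSpace N]
  [ChartedSpace (V n) N] [IsManifold (𝓡 n) ∞ N] {r : ℕ∞}

theorem nil_pieces (hr : 1 ≤ r) {F : DiffM n N r} (hF : OmegaStable n N r F) :
    ∃ U : Set (DiffM n N r), IsOpen[strongTop n N r] U ∧ F ∈ U ∧ ∀ G ∈ U, NilPieces n G := by
  obtain ⟨U, hU, hFU, hconj⟩ := hF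
  refine ⟨U, hU, hFU, fun F' hF' => ?_⟩
  intro G _ _ d ι 𝔤 O act y m h φ L hact hyO hy h𝔤 hm hret hdis hL
  exact nil_hyp r hr (omegaStable_near hU hconj hF') hact hyO hy h𝔤 hm hret hdis hL

theorem hom_dense (hr : 1 ≤ r) {F : DiffM n N r} (hF : OmegaStable n N r F) (h : HomCR n F) :
    CR F = closure (Per F) ∧ Omega F = closure (Per F) := by
  obtain ⟨ι, K, hfin, hK, hdis, hun⟩ := h
  refine cr_dense (K := K) (fun i => ?_) (fun i => ?_) hdis hun fun i z hz hch => ?_
  · rcases hK i with ⟨_, _, _, _, _, _, _, _, _, _, _, _, _, _, _, h⟩ |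
      ⟨_, _, _, _, _, _, _, _, _, _, _, _, h⟩
    · exact h.closed
    · exact h.closed
  · rcases hK i with ⟨_, _, _, _, _, _, _, _, _, _, _, _, _, _, _, h⟩ |
      ⟨_, _, _, _, _, _, _, _, _, _, _, _, h⟩
    · exact h.inv
    · exact h.inv
  · rcases hK i with h | ⟨k, h⟩
    · exact nil_mem_closure_per r hr hF h hch
    · exact cpt_mem_closure_per r hr hF h hch

theorem pieces (hr : 1 ≤ r) {F : DiffM n N r} (hF : OmegaStable n N r F) :
    ∃ U : Set (DiffM n N r), IsOpen[strongTop n N r] U ∧ F ∈ U ∧ ∀ G ∈ U,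
      NilPieces n G ∧ ∀ d : ℕ, 2 ≤ d → ∀ y : N, ¬ IsSLdPer d n N G y := by
  obtain ⟨U, hU, hFU, h⟩ := nil_pieces hr hF
  obtain ⟨U', hU', hFU', h'⟩ := no_sl hr hF
  exact ⟨U ∩ U', @IsOpen.inter _ (strongTop n N r) _ _ hU hU', ⟨hFU, hFU'⟩,
    fun G hG => ⟨h G hG.1, h' G hG.2⟩⟩

end Pool.Agent.W5h63.AP
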